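import Pool.Agent.Run7.h238.P.PC

/-!
# The number of pairs of vectors with a given inner product and a common line modulo three
-/

set_option autoImplicit false

namespace Run7.h238.P

open Finset
open Pool.Agent.Z700 (hh fac)
open Pool.Agent.N969.P15 (V3 ip vec cp cp3 loc loc3 lrest tw S_PC S_CP3)

theorem sq3 {b : ℤ} (h3 : ¬ (3 : ℤ) ∣ b) : ∃ c : ℤ, b ^ 2 = 3 * c + 1 := by
  have h1 : b % 3 = 1 ∨ b % 3 = 2 := by omega
  rcases h1 with h1 | h1
  · obtain ⟨k, hk⟩ : ∃ k, b = 3 * k + 1 := ⟨b / 3, by omega⟩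
    exact ⟨3 * k ^ 2 + 2 * k, by rw [hk]; ring⟩
  · obtain ⟨k, hk⟩ : ∃ k, b = 3 * k + 2 := ⟨b / 3, by omega⟩
    exact ⟨3 * k ^ 2 + 4 * k + 1, by rw [hk]; ring⟩

theorem exists_w' {v w : V3} {b : ℤ} (h3 : ¬ (3 : ℤ) ∣ b) (h : ∀ i, (3 : ℤ) ∣ v i + b * w i) :
    ∃ w' : V3, w = (3 : ℤ) • w' - b • v := by
  obtain ⟨c, hc⟩ := sq3 h3
  have h2 : ∀ i, ∃ t : ℤ, w i + b * v i = 3 * t := by
    intro i
    obtain ⟨s, hs⟩ := h i
    refine ⟨b * s - c * w i, ?_⟩
    linear_combination b * hs - w i * hc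
  choose t ht using h2
  refine ⟨t, ?_⟩
  funext i
  simp only [Pi.sub_apply, Pi.smul_apply, smul_eq_mul]
  linear_combination ht i

theorem ip_w' (v w' : V3) (b : ℤ) : ip v ((3 : ℤ) • w' - b • v) = 3 * ip v w' - b * ip v v ∧
    ip ((3 : ℤ) • w' - b • v) ((3 : ℤ) • w' - b • v) =
      9 * ip w' w' - 6 * b * ip v w' + b ^ 2 * ip v v := by
  simp only [ip, Pi.sub_apply, Pi.smul_apply, smul_eq_mul]
  constructor <;> ring

theorem cp3_zero {n1 n2 : ℕ} {b : ℤ} {D : ℕ} (h3 : ¬ (3 : ℤ) ∣ b)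
    (hDD : (D : ℤ) = n1 * n2 - b ^ 2) (h9 : ¬ 9 ∣ D) : cp3 n1 b n2 = 0 := by
  unfold cp3
  rw [Finset.card_eq_zero, Finset.filter_eq_empty_iff]
  rintro ⟨v, w⟩ hvw ⟨h1, h2⟩
  rw [mem_product, mem_vec, mem_vec] at hvw
  obtain ⟨a1, a2⟩ := hvw
  dsimp only at a1 a2 h1 h2
  obtain ⟨w', rfl⟩ := exists_w' h3 h2
  obtain ⟨e1, e2⟩ := ip_w' v w' b
  rw [e1, a1] at h1
  rw [e2, a1] at a2
  apply h9
  have : (9 : ℤ) ∣ D := by
    refine ⟨n1 * ip w' w' - ip v w' ^ 2, ?_⟩
    rw [hDD, ← a2]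
    linear_combination (3 * ip v w' - b * n1 + b) * h1
  exact_mod_cast this

theorem cp3_eq {n1 n2 n3 : ℕ} {b b' : ℤ} (h3 : ¬ (3 : ℤ) ∣ b)
    (hb : 3 * b' = b * (1 + n1)) (hn : 9 * (n3 : ℤ) = n2 + 2 * b ^ 2 + b ^ 2 * n1) :
    cp3 n1 b n2 = cp n1 b' n3 := by
  classical
  obtain ⟨c, hc⟩ := sq3 h3
  unfold cp3 cp
  symm
  refine Finset.card_bij (fun q _ => (q.1, (3 : ℤ) • q.2 - b • q.1)) ?_ ?_ ?_
  · rintro ⟨v, w'⟩ h
    rw [mem_filter, mem_product, mem_vec, mem_vec] at h ⊢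
    obtain ⟨⟨a1, a2⟩, a3⟩ := h
    dsimp only at a1 a2 a3 ⊢
    obtain ⟨e1, e2⟩ := ip_w' v w' b
    rw [e1, e2, a1, a2, a3]
    refine ⟨⟨rfl, ?_⟩, ?_, fun i => ⟨-c * v i + b * w' i, ?_⟩⟩
    · linear_combination hn - 2 * b * hb
    · linear_combination hb
    · simp only [Pi.sub_apply, Pi.smul_apply, smul_eq_mul]
      linear_combination (-(v i)) * hc
  · rintro ⟨v, w'⟩ _ ⟨v2, w2⟩ _ he
    have h1 : v = v2 := congrArg Prod.fst he
    have h2 : (3 : ℤ) • w' - b • v = (3 : ℤ) • w2 - b • v2 := congrArg Prod.snd he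
    subst h1
    have h4 : w' = w2 := by
      funext i
      have := congrFun h2 i
      simp only [Pi.sub_apply, Pi.smul_apply, smul_eq_mul] at this
      omega
    rw [h4]
  · rintro ⟨v, w⟩ h
    rw [mem_filter, mem_product, mem_vec, mem_vec] at h
    obtain ⟨⟨a1, a2⟩, a3, a4⟩ := h
    dsimp only at a1 a2 a3 a4
    obtain ⟨w', rfl⟩ := exists_w' h3 a4
    obtain ⟨e1, e2⟩ := ip_w' v w' b
    rw [e1, a1] at a3
    rw [e2, a1] at a2
    refine ⟨(v, w'), ?_, rfl⟩
    rw [mem_filter, mem_product, mem_vec, mem_vec]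
    have h5 : ip v w' = b' := by linarith
    refine ⟨⟨a1, ?_⟩, h5⟩
    dsimp only
    rw [h5] at a2
    have : 9 * ip w' w' = 9 * (n3 : ℤ) := by linear_combination a2 - hn + 2 * b * hb
    linarith

theorem fac_nine {n D l : ℕ} (hn3 : ¬ 3 ∣ n) (hl : l.Prime) (l3 : l ≠ 3) (D0 : D ≠ 0) :
    fac n (9 * D) l = fac n D l := by
  have hv : (9 * D).factorization l = D.factorization l := by
    rw [Nat.factorization_mul (by norm_num) D0]
    have e : 9 = 3 ^ 2 := by norm_num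
    rw [Finsupp.add_apply, e, Nat.prime_three.factorization_pow]
    simp [Ne.symm l3]
  have h3l : ¬ l ∣ 3 := by
    rw [Nat.prime_dvd_prime_iff_eq hl Nat.prime_three]
    exact l3
  have hdiv : 9 * D / l ^ D.factorization l = 9 * (D / l ^ D.factorization l) :=
    Nat.mul_div_assoc _ (Nat.ordProj_dvd D l)
  unfold fac
  split_ifs with h1
  · unfold hh
    rw [hv, hdiv]
    split_ifs with h2
    · have e : (-((9 * (D / l ^ D.factorization l) : ℕ) : ℤ)) =
          (-((D / l ^ D.factorization l : ℕ) : ℤ)) * ((3 : ℕ) : ℤ) ^ 2 := by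
        push_cast
        ring
      rw [e, jac_sq hl _ h3l]
    · have e : (-((n / l * (9 * (D / l ^ D.factorization l)) : ℕ) : ℤ)) =
          (-((n / l * (D / l ^ D.factorization l) : ℕ) : ℤ)) * ((3 : ℕ) : ℤ) ^ 2 := by
        push_cast
        ring
      rw [e, jac_sq hl _ h3l]
  · rw [hv]

theorem lrest_nine {n D : ℕ} (hn3 : ¬ 3 ∣ n) (D0 : D ≠ 0) : lrest n (9 * D) = lrest n D := by
  have e : 9 = 3 ^ 2 := by norm_num
  have hv : ∀ l : ℕ, l ≠ 3 → (9 * D).factorization l = D.factorization l := by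
    intro l hl
    rw [Nat.factorization_mul (by norm_num) D0, Finsupp.add_apply, e,
      Nat.prime_three.factorization_pow]
    simp [Ne.symm hl]
  unfold lrest tw
  rw [hv 5 (by norm_num), hv 2 (by norm_num)]
  have hp : (((9 * D).primeFactors.erase 2).erase 3).erase 5 =
      ((D.primeFactors.erase 2).erase 3).erase 5 := by
    have h1 : (9 * D).primeFactors = {3} ∪ D.primeFactors := by
      rw [Nat.primeFactors_mul (by norm_num) D0, e, Nat.primeFactors_prime_pow (by norm_num)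
        Nat.prime_three]
    rw [h1]
    ext p
    simp only [mem_erase, mem_union, mem_singleton]
    tauto
  rw [hp]
  by_cases h5 : Odd (D.factorization 5)
  · rw [if_pos h5, if_pos h5]
    congr 1
    refine Finset.prod_congr rfl fun l hl => ?_
    rw [mem_erase, mem_erase, mem_erase] at hl
    exact fac_nine hn3 (Nat.prime_of_mem_primeFactors hl.2.2.2) hl.2.1 D0
  · rw [if_neg h5, if_neg h5]

theorem loc_eq {n D : ℕ} (hn3 : n % 3 = 2) (D0 : D ≠ 0) :
    loc n D = ((D.factorization 3 : ℤ) + 1) * lrest n D := by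
  have f3 : ∑ j ∈ range (D.factorization 3 + 1), (jacobiSym (-(n : ℤ)) 3) ^ j =
      (D.factorization 3 : ℤ) + 1 := by
    have h1 : jacobiSym (-(n : ℤ)) 3 = 1 := by
      rw [jacobiSym.mod_left]
      have h2 : (-(n : ℤ)) % ((3 : ℕ) : ℤ) = 1 := by
        push_cast
        omega
      rw [h2]
      norm_num
    rw [h1]
    simp
  have hn : ¬ 3 ∣ n := by omega
  unfold loc lrest
  split_ifs with h5
  · by_cases h3 : 3 ∣ D
    · have h3m : 3 ∈ (D.primeFactors.erase 2).erase 5 := by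
        rw [mem_erase, mem_erase]
        exact ⟨by norm_num, by norm_num, Nat.mem_primeFactors.2 ⟨Nat.prime_three, h3, D0⟩⟩
      rw [← Finset.mul_prod_erase _ _ h3m]
      have e1 : ((D.primeFactors.erase 2).erase 5).erase 3 =
          ((D.primeFactors.erase 2).erase 3).erase 5 := Finset.erase_right_comm
      have e2 : fac n D 3 = (D.factorization 3 : ℤ) + 1 := by
        unfold fac
        rw [if_neg hn, f3]
      rw [e1, e2]
      ring
    · have e1 : ((D.primeFactors.erase 2).erase 3).erase 5 = (D.primeFactors.erase 2).erase 5 := by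
        rw [Finset.erase_right_comm, Finset.erase_eq_of_notMem (a := 3)]
        rw [mem_erase, mem_erase]
        rintro ⟨_, _, h6⟩
        exact h3 (Nat.dvd_of_mem_primeFactors h6)
      rw [e1, Nat.factorization_eq_zero_of_not_dvd h3]
      simp
  · simp

theorem t_CP3 : S_CP3 := by
  intro n1 n2 b D hs hn4 hn3 hn3' h5 hb3 hD hDD
  rw [pc n1 n2 b D hs hn4 h5 hD hDD, loc_eq hn3 hD.ne']
  unfold loc3
  obtain ⟨c, hc⟩ := sq3 hb3
  have h3D : 3 ∣ D := by
    have : (3 : ℤ) ∣ D := by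
      rw [hDD, hc]
      obtain ⟨x, hx⟩ : ∃ x : ℤ, (n1 : ℤ) = 3 * x + 2 := ⟨n1 / 3, by omega⟩
      obtain ⟨y, hy⟩ : ∃ y : ℤ, (n2 : ℤ) = 3 * y + 2 := ⟨n2 / 3, by omega⟩
      rw [hx, hy]
      exact ⟨3 * x * y + 2 * x + 2 * y + 1 - c, by ring⟩
    exact_mod_cast this
  have v1 : 1 ≤ D.factorization 3 := by
    have := (Nat.prime_three.dvd_iff_one_le_factorization hD.ne').1 h3D
    exact this
  by_cases h9 : 9 ∣ D
  · obtain ⟨E, hE⟩ := h9
    have E0 : E ≠ 0 := by
      rintro rfl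
      omega
    obtain ⟨x, hx⟩ : ∃ x : ℤ, (n1 : ℤ) = 3 * x + 2 := ⟨n1 / 3, by omega⟩
    have hb' : 3 * (b * (1 + x)) = b * (1 + n1) := by rw [hx]; ring
    have h9' : (9 : ℤ) ∣ n2 + 2 * b ^ 2 + b ^ 2 * n1 := by
      have h1 : (9 : ℤ) ∣ n1 * (n2 + 2 * b ^ 2 + b ^ 2 * n1) := by
        refine ⟨E + b ^ 2 * (1 + x) ^ 2, ?_⟩
        have h2 : (9 * E : ℤ) = n1 * n2 - b ^ 2 := by
          rw [← hDD, hE]
          push_cast
          ring
        rw [hx] at h2 ⊢
        linear_combination -h2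
      have h2 : IsCoprime (9 : ℤ) n1 := by
        have h3 : IsCoprime ((3 : ℤ)) n1 := by
          refine (Prime.coprime_iff_not_dvd Int.prime_three).2 ?_
          omega
        have : (9 : ℤ) = 3 ^ 2 := by norm_num
        rw [this]
        exact h3.pow_left
      exact h2.dvd_of_dvd_mul_left h1
    obtain ⟨y, hy⟩ := h9'
    have y0 : 0 ≤ y := by
      have : 0 ≤ (n2 : ℤ) + 2 * b ^ 2 + b ^ 2 * n1 := by positivity
      omega
    obtain ⟨n3, rfl⟩ := Int.eq_ofNat_of_zero_le y0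
    rw [cp3_eq hb3 hb' hy.symm]
    have hDE : (E : ℤ) = n1 * n3 - (b * (1 + x)) ^ 2 := by
      have h2 : (9 * E : ℤ) = n1 * n2 - b ^ 2 := by
        rw [← hDD, hE]
        push_cast
        ring
      have h4 : 9 * (E : ℤ) = 9 * (n1 * n3 - (b * (1 + x)) ^ 2) := by
        rw [h2]
        rw [hx] at hy ⊢
        linear_combination (3 * x + 2) * hy
      linarith
    rw [pc n1 n3 _ E hs hn4 h5 (Nat.pos_of_ne_zero E0) hDE, loc_eq hn3 E0]
    have hv : (D.factorization 3 : ℤ) = E.factorization 3 + 2 := by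
      rw [hE, Nat.factorization_mul (by norm_num) E0]
      have e : 9 = 3 ^ 2 := by norm_num
      rw [Finsupp.add_apply, e, Nat.prime_three.factorization_pow]
      simp
      ring
    have hl : lrest n1 D = lrest n1 E := by
      rw [hE]
      exact lrest_nine (by omega) E0
    rw [hv, hl]
    ring
  · rw [cp3_zero hb3 hDD h9]
    have hv : D.factorization 3 = 1 := by
      have h1 : ¬ 2 ≤ D.factorization 3 := by
        intro h2
        exact h9 ((Nat.prime_three.pow_dvd_iff_le_factorization hD.ne').2 h2)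
      omega
    rw [hv]
    push_cast
    ring

end Run7.h238.P
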