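import Pool.Agent.Run7.h238.P.Iso

/-!
# Pairs of vectors with a given Gram matrix and their parameters
-/

set_option autoImplicit false

namespace Run7.h238.P

open Matrix hiding vec
open Pool.Agent.N969.P15 (V3 ip vec cp)

/-- dot product -/
def dt (v w : V3) : ℤ := v 0 * w 0 + v 1 * w 1 + v 2 * w 2

/-- cross product -/
def cr (v w : V3) : V3 := ![v 1 * w 2 - v 2 * w 1, v 2 * w 0 - v 0 * w 2, v 0 * w 1 - v 1 * w 0]

theorem cr0 (v w : V3) : cr v w 0 = v 1 * w 2 - v 2 * w 1 := rfl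
theorem cr1 (v w : V3) : cr v w 1 = v 2 * w 0 - v 0 * w 2 := rfl
theorem cr2 (v w : V3) : cr v w 2 = v 0 * w 1 - v 1 * w 0 := rfl

theorem ext3 {v w : V3} (h0 : v 0 = w 0) (h1 : v 1 = w 1) (h2 : v 2 = w 2) : v = w := by
  funext i
  fin_cases i
  · exact h0
  · exact h1
  · exact h2

theorem ip_cr (x y x' y' : V3) : ip (cr x y) (cr x' y') = nn x x' * nn y y' - nn x y' * nn y x' := by
  simp only [ip, nn, cr0, cr1, cr2]
  ring

theorem nn_cr (v w : V3) : 10 * nn (cr v w) (cr v w) = ip v v * ip w w - ip v w ^ 2 := by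
  simp only [ip, nn, cr0, cr1, cr2]
  ring

theorem nn_comm (x y : V3) : nn x y = nn y x := by
  unfold nn
  ring

/-- determinant as a triple product -/
def tp (x y z : V3) : ℤ := dt (cr x y) z

theorem det_tp (A : M3) : A.det = tp (A 0) (A 1) (A 2) := by
  rw [Matrix.det_fin_three]
  simp only [tp, dt, cr0, cr1, cr2]
  ring

/-- the expansion in the dual basis -/
theorem dual_exp {x y z : V3} (h : tp x y z = 1) (w : V3) :
    w = dt w x • cr y z + dt w y • cr z x + dt w z • cr x y := by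
  simp only [tp, dt, cr0, cr1, cr2] at h
  refine ext3 ?_ ?_ ?_ <;>
    simp only [Pi.add_apply, Pi.smul_apply, smul_eq_mul, dt, cr0, cr1, cr2]
  · linear_combination (-(w 0)) * h
  · linear_combination (-(w 1)) * h
  · linear_combination (-(w 2)) * h

/-- the expansion in the basis -/
theorem bas_exp {x y z : V3} (h : tp x y z = 1) (w : V3) :
    w = dt w (cr y z) • x + dt w (cr z x) • y + dt w (cr x y) • z := by
  simp only [tp, dt, cr0, cr1, cr2] at h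
  refine ext3 ?_ ?_ ?_ <;>
    simp only [Pi.add_apply, Pi.smul_apply, smul_eq_mul, dt, cr0, cr1, cr2]
  · linear_combination (-(w 0)) * h
  · linear_combination (-(w 1)) * h
  · linear_combination (-(w 2)) * h

theorem mem_vec (n : ℕ) (v : V3) : v ∈ vec n ↔ ip v v = n := by
  unfold vec
  simp only [Finset.mem_filter, Fintype.mem_piFinset, Finset.mem_Icc, and_iff_right_iff_imp]
  intro h i
  have key : ∀ x : ℤ, x ^ 2 ≤ n → -(n : ℤ) ≤ x ∧ x ≤ n := by
    intro x hx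
    constructor <;> nlinarith [sq_nonneg (x - 1), sq_nonneg (x + 1)]
  have e1 : 3 * ip v v = (3 * v 0 - v 1 - v 2) ^ 2 + 20 * v 1 ^ 2 + 20 * v 2 ^ 2 - 20 * (v 1 * v 2) := by
    unfold ip
    ring
  have e2 : 7 * ip v v = (7 * v 1 - v 0 - 3 * v 2) ^ 2 + 20 * v 0 ^ 2 + 40 * v 2 ^ 2 -
      20 * (v 0 * v 2) := by
    unfold ip
    ring
  apply key
  rw [h] at e1 e2
  fin_cases i
  · show v 0 ^ 2 ≤ n
    nlinarith [sq_nonneg (7 * v 1 - v 0 - 3 * v 2), sq_nonneg (v 0 - 4 * v 2), sq_nonneg (v 0)]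
  · show v 1 ^ 2 ≤ n
    nlinarith [sq_nonneg (3 * v 0 - v 1 - v 2), sq_nonneg (v 1 - 2 * v 2), sq_nonneg (v 1)]
  · show v 2 ^ 2 ≤ n
    nlinarith [sq_nonneg (3 * v 0 - v 1 - v 2), sq_nonneg (v 2 - 2 * v 1), sq_nonneg (v 2)]

/-- the parameters -/
structure XP (n b D e a h z g : ℤ) : Prop where
  e0 : 0 < e
  a0 : 0 < a
  hD : 20 * a * e ^ 2 = D
  h0 : 0 ≤ h
  h1 : h < 2 * a
  hh : 4 * a ∣ h ^ 2 + n
  z0 : 0 ≤ z
  z1 : z < n
  g0 : 0 ≤ g
  g1 : g < 2 * a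
  zg : 2 * a ∣ z + h * g
  cc : 4 * a * n ∣ z ^ 2 + n * g ^ 2 + 20 * a
  bz : n ∣ e * z + b

/-- the Gram matrix of the parameters -/
def GG (n a h z g : ℤ) : M3 := !![2 * a, h, g; h, 2 * ((h ^ 2 + n) / (4 * a)), (z + h * g) / (2 * a);
  g, (z + h * g) / (2 * a), 2 * ((z ^ 2 + n * g ^ 2 + 20 * a) / (4 * a * n))]

theorem det_form {a h g b' f c n z : ℤ} (a0 : 0 < a) (h1 : 4 * a * b' = h ^ 2 + n)
    (h2 : 2 * a * f = z + h * g) (h3 : 4 * a * n * c = z ^ 2 + n * g ^ 2 + 20 * a) :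
    (!![2 * a, h, g; h, 2 * b', f; g, f, 2 * c] : M3).det = 10 := by
  rw [Matrix.det_fin_three]
  simp only [Matrix.of_apply, Matrix.cons_val_zero, Matrix.cons_val_one, Matrix.cons_val]
  have h4 : 4 * a ≠ 0 := by omega
  apply mul_left_cancel₀ h4
  linear_combination 2 * h3 + (8 * a * c - 2 * g ^ 2) * h1 - (2 * (2 * a * f) - 2 * h * g + 2 * z) * h2

theorem Gd_of {a h g b' f c n z : ℤ} (a0 : 0 < a) (n0 : 0 < n) (h1 : 4 * a * b' = h ^ 2 + n)
    (h2 : 2 * a * f = z + h * g) (h3 : 4 * a * n * c = z ^ 2 + n * g ^ 2 + 20 * a) :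
    Gd !![2 * a, h, g; h, 2 * b', f; g, f, 2 * c] := by
  have hQ : ∀ x : Fin 3 → ℤ, x ⬝ᵥ ((!![2 * a, h, g; h, 2 * b', f; g, f, 2 * c] : M3) *ᵥ x) =
      2 * (a * x 0 ^ 2 + b' * x 1 ^ 2 + c * x 2 ^ 2 + h * (x 0 * x 1) + g * (x 0 * x 2) +
        f * (x 1 * x 2)) := by
    intro x
    simp only [dotProduct, Matrix.mulVec, Fin.sum_univ_three, Matrix.of_apply,
      Matrix.cons_val_zero, Matrix.cons_val_one, Matrix.cons_val]
    ring
  refine ⟨?_, ?_, ?_, det_form a0 h1 h2 h3⟩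
  · ext i j
    fin_cases i <;> fin_cases j <;> rfl
  · intro x
    rw [hQ]
    exact even_two_mul _
  · intro x hx
    rw [hQ]
    have key : 2 * a * n * (2 * (a * x 0 ^ 2 + b' * x 1 ^ 2 + c * x 2 ^ 2 + h * (x 0 * x 1) +
        g * (x 0 * x 2) + f * (x 1 * x 2))) =
        n * (2 * a * x 0 + h * x 1 + g * x 2) ^ 2 + (n * x 1 + z * x 2) ^ 2 + 20 * a * x 2 ^ 2 := by
      linear_combination (n * x 1 ^ 2) * h1 + (2 * n * x 1 * x 2) * h2 + x 2 ^ 2 * h3
    have hpos : 0 < n * (2 * a * x 0 + h * x 1 + g * x 2) ^ 2 + (n * x 1 + z * x 2) ^ 2 +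
        20 * a * x 2 ^ 2 := by
      have p1 : 0 ≤ n * (2 * a * x 0 + h * x 1 + g * x 2) ^ 2 := by positivity
      have p2 : 0 ≤ (n * x 1 + z * x 2) ^ 2 := by positivity
      have p3 : 0 ≤ 20 * a * x 2 ^ 2 := by positivity
      by_contra hc
      push Not at hc
      have q3 : 20 * a * x 2 ^ 2 = 0 := by linarith
      have q2 : (n * x 1 + z * x 2) ^ 2 = 0 := by linarith
      have q1 : n * (2 * a * x 0 + h * x 1 + g * x 2) ^ 2 = 0 := by linarith
      have x2 : x 2 = 0 := by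
        have : x 2 ^ 2 = 0 := by
          rcases mul_eq_zero.1 q3 with h5 | h5
          · omega
          · exact h5
        exact pow_eq_zero_iff (two_ne_zero) |>.1 this
      have x1 : x 1 = 0 := by
        have h5 := pow_eq_zero_iff (two_ne_zero) |>.1 q2
        rw [x2, mul_zero, add_zero] at h5
        rcases mul_eq_zero.1 h5 with h6 | h6
        · omega
        · exact h6
      have x0 : x 0 = 0 := by
        rcases mul_eq_zero.1 q1 with h5 | h5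
        · omega
        · have h6 := pow_eq_zero_iff (two_ne_zero) |>.1 h5
          rw [x1, x2, mul_zero, mul_zero, add_zero, add_zero] at h6
          rcases mul_eq_zero.1 h6 with h7 | h7
          · omega
          · exact h7
      exact hx (ext3 x0 x1 x2)
    rw [← key] at hpos
    exact (pos_iff_pos_of_mul_pos hpos).1 (by positivity)

theorem XP.gd {n b D e a h z g : ℤ} (x : XP n b D e a h z g) : Gd (GG n a h z g) := by
  have n0 : 0 < n := lt_of_le_of_lt x.z0 x.z1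
  refine Gd_of x.a0 n0 (Int.mul_ediv_cancel' x.hh) (Int.mul_ediv_cancel' x.zg)
    (Int.mul_ediv_cancel' x.cc)

/-- primitive decomposition -/
theorem prim_dec (u : V3) (hu : u ≠ 0) : ∃ e : ℤ, 0 < e ∧ ∃ g c : V3, u = e • g ∧ dt c g = 1 := by
  set d1 : ℕ := Int.gcd (u 0) (u 1) with hd1
  set d : ℕ := Int.gcd (d1 : ℤ) (u 2) with hd
  have b1 : (d1 : ℤ) = u 0 * Int.gcdA (u 0) (u 1) + u 1 * Int.gcdB (u 0) (u 1) :=
    Int.gcd_eq_gcd_ab _ _
  have b2 : (d : ℤ) = (d1 : ℤ) * Int.gcdA (d1 : ℤ) (u 2) + u 2 * Int.gcdB (d1 : ℤ) (u 2) :=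
    Int.gcd_eq_gcd_ab _ _
  have c1 : (d : ℤ) ∣ (d1 : ℤ) := Int.gcd_dvd_left _ _
  have c2 : (d : ℤ) ∣ u 2 := Int.gcd_dvd_right _ _
  have c3 : (d : ℤ) ∣ u 0 := c1.trans (Int.gcd_dvd_left _ _)
  have c4 : (d : ℤ) ∣ u 1 := c1.trans (Int.gcd_dvd_right _ _)
  have d0 : (d : ℤ) ≠ 0 := by
    intro h0
    rw [h0] at c2 c3 c4
    exact hu (ext3 (zero_dvd_iff.1 c3) (zero_dvd_iff.1 c4) (zero_dvd_iff.1 c2))
  obtain ⟨g0, e0⟩ := c3
  obtain ⟨g1, e1⟩ := c4
  obtain ⟨g2, e2⟩ := c2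
  refine ⟨d, by positivity, ![g0, g1, g2],
    ![Int.gcdA (u 0) (u 1) * Int.gcdA (d1 : ℤ) (u 2), Int.gcdB (u 0) (u 1) * Int.gcdA (d1 : ℤ) (u 2),
      Int.gcdB (d1 : ℤ) (u 2)], ?_, ?_⟩
  · refine ext3 ?_ ?_ ?_ <;> simp [e0, e1, e2]
  · simp only [dt, Matrix.cons_val_zero, Matrix.cons_val_one, Matrix.cons_val]
    apply mul_left_cancel₀ d0
    have b3 := b2
    rw [b1] at b3
    generalize Int.gcdA (u 0) (u 1) = p at *
    generalize Int.gcdB (u 0) (u 1) = q at *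
    generalize Int.gcdA (d1 : ℤ) (u 2) = r at *
    generalize Int.gcdB (d1 : ℤ) (u 2) = s at *
    rw [b1] at b2
    rw [mul_one]
    conv_rhs => rw [b2]
    rw [e0, e1, e2]
    ring

end Run7.h238.P
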