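import Pool.Agent.Run7.h238.P.Sq

/-!
# The number of square roots with a square cofactor
-/

set_option autoImplicit false

namespace Run7.h238.P

open Finset

open scoped Classical in
/-- the number of square roots as an arithmetic function -/
noncomputable def RF (n : ℕ) : ArithmeticFunction ℤ := ⟨fun a => rho n a, by simp [rho]⟩

open scoped Classical in
/-- the indicator function of the squares -/
noncomputable def SQ : ArithmeticFunction ℤ := ⟨fun k => if IsSquare k ∧ k ≠ 0 then 1 else 0, by simp⟩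

theorem RF_apply (n a : ℕ) : RF n a = rho n a := rfl

open scoped Classical in
theorem SQ_apply (k : ℕ) : SQ k = if IsSquare k ∧ k ≠ 0 then 1 else 0 := rfl

theorem RF_mul {n : ℕ} (hn : n % 4 = 3) : (RF n).IsMultiplicative := by
  refine ⟨?_, ?_⟩
  · rw [RF_apply, rho_one hn]
    rfl
  · intro a b hab
    rw [RF_apply, RF_apply, RF_apply, rho_mul hn hab]
    push_cast
    rfl

theorem isSquare_left {x y : ℕ} (h : x.Coprime y) (hs : IsSquare (x * y)) : IsSquare x := by
  obtain ⟨c, hc⟩ := hs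
  have h2 : x * y = c ^ 2 := by rw [hc]; ring
  obtain ⟨d, hd⟩ := exists_eq_pow_of_mul_eq_pow (Nat.isUnit_iff.2 h) h2
  exact ⟨d, by rw [hd]; ring⟩

theorem SQ_mul : SQ.IsMultiplicative := by
  classical
  refine ⟨?_, ?_⟩
  · rw [SQ_apply, if_pos ⟨⟨1, rfl⟩, one_ne_zero⟩]
  · intro a b hab
    rw [SQ_apply, SQ_apply, SQ_apply]
    by_cases ha : IsSquare a ∧ a ≠ 0
    · by_cases hb : IsSquare b ∧ b ≠ 0
      · rw [if_pos ha, if_pos hb, if_pos ⟨ha.1.mul hb.1, mul_ne_zero ha.2 hb.2⟩]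
        rfl
      · rw [if_neg hb, mul_zero, if_neg]
        rintro ⟨h1, h2⟩
        exact hb ⟨isSquare_left hab.symm (by rwa [mul_comm] at h1), (mul_ne_zero_iff.1 h2).2⟩
    · rw [if_neg ha, zero_mul, if_neg]
      rintro ⟨h1, h2⟩
      exact ha ⟨isSquare_left hab h1, (mul_ne_zero_iff.1 h2).1⟩

theorem SQ_pow {p : ℕ} (hp : p.Prime) (k : ℕ) : SQ (p ^ k) = if Even k then 1 else 0 := by
  classical
  rw [SQ_apply]
  by_cases h : Even k
  · rw [if_pos h, if_pos]
    exact ⟨h.isSquare_pow p, pow_ne_zero _ hp.ne_zero⟩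
  · rw [if_neg h, if_neg]
    rintro ⟨⟨c, hc⟩, _⟩
    apply h
    have h1 : (p ^ k).factorization p = (c * c).factorization p := by rw [hc]
    have c0 : c ≠ 0 := by
      rintro rfl
      simp at hc
      exact hp.ne_zero hc.1
    rw [Nat.factorization_mul c0 c0, hp.factorization_pow] at h1
    simp at h1
    exact ⟨_, h1⟩

/-- the local sums -/
noncomputable def ss (n p k : ℕ) : ℤ := ∑ j ∈ range (k + 1), chi n p ^ j

theorem conv_pow {n p : ℕ} (hp : p.Prime) (hn : n % 4 = 3) (hs : Squarefree n) (k : ℕ) :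
    (RF n * SQ) (p ^ k) = ss n p k := by
  have e : ∀ k : ℕ, (RF n * SQ) (p ^ k) =
      ∑ j ∈ range (k + 1), (if Even (k - j) then (rho n (p ^ j) : ℤ) else 0) := by
    intro k
    rw [ArithmeticFunction.mul_apply, Nat.sum_divisorsAntidiagonal (fun x y => RF n x * SQ y),
      Nat.sum_divisors_prime_pow hp]
    refine Finset.sum_congr rfl fun j hj => ?_
    rw [mem_range] at hj
    rw [Nat.pow_div (by omega) hp.pos, SQ_pow hp, RF_apply]
    split_ifs <;> simp
  rw [e]
  unfold ss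
  -- induction by steps of two
  induction k using Nat.twoStepInduction with
  | zero => simp [rho_one hn]
  | one =>
    have := rho_pow hp hn hs 0
    simp [Finset.sum_range_succ] at this ⊢
    rw [this]
  | more k ih _ =>
    rw [Finset.sum_range_succ, Finset.sum_range_succ, Finset.sum_range_succ (n := k + 1 + 1),
      Finset.sum_range_succ (n := k + 1)]
    have h1 : ∑ x ∈ range (k + 1), (if Even (k + 1 + 1 - x) then (rho n (p ^ x) : ℤ) else 0) =
        ∑ x ∈ range (k + 1), (if Even (k - x) then (rho n (p ^ x) : ℤ) else 0) := by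
      refine Finset.sum_congr rfl fun j hj => ?_
      rw [mem_range] at hj
      have : k + 1 + 1 - j = (k - j) + 2 := by omega
      rw [this]
      simp only [Nat.even_add, even_two, iff_true]
    have h2 : ¬ Even (k + 1 + 1 - (k + 1)) := by
      have : k + 1 + 1 - (k + 1) = 1 := by omega
      rw [this]
      decide
    have h3 : Even (k + 1 + 1 - (k + 1 + 1)) := by simp
    rw [h1, ih, if_neg h2, if_pos h3, rho_pow hp hn hs]
    ring

theorem conv_eq {n : ℕ} (hn : n % 4 = 3) (hs : Squarefree n) {m : ℕ} (hm : m ≠ 0) :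
    (RF n * SQ) m = ∏ p ∈ m.primeFactors, ss n p (m.factorization p) := by
  rw [ArithmeticFunction.IsMultiplicative.multiplicative_factorization _
    ((RF_mul hn).mul SQ_mul) hm]
  rw [Finsupp.prod, Nat.support_factorization]
  refine Finset.prod_congr rfl fun p hp => ?_
  exact conv_pow (Nat.prime_of_mem_primeFactors hp) hn hs _

/-- the parameters `(e, a, h)` -/
structure YP (n m e a h : ℤ) : Prop where
  e0 : 0 < e
  a0 : 0 < a
  hm : a * e ^ 2 = m
  h0 : 0 ≤ h
  h1 : h < 2 * a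
  hh : 4 * a ∣ h ^ 2 + n

open scoped Classical in
/-- the finite set of parameters -/
noncomputable def TT (n m : ℕ) : Finset (Σ _ : ℕ × ℕ, ℤ) :=
  ((Nat.divisorsAntidiagonal m).filter fun q => IsSquare q.2).sigma fun q =>
    (Ico (0 : ℤ) (2 * q.1)).filter fun h : ℤ => (4 * q.1 : ℤ) ∣ h ^ 2 + n

theorem card_TT (n m : ℕ) : ((TT n m).card : ℤ) = (RF n * SQ) m := by
  classical
  rw [TT, Finset.card_sigma, ArithmeticFunction.mul_apply, Finset.sum_filter]
  push_cast
  refine Finset.sum_congr rfl fun q hq => ?_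
  have h2 : q.2 ≠ 0 := (Nat.ne_zero_of_mem_divisorsAntidiagonal hq).2
  rw [RF_apply, SQ_apply]
  by_cases h : IsSquare q.2
  · rw [if_pos h, if_pos ⟨h, h2⟩, mul_one]
    rfl
  · rw [if_neg h, if_neg (fun h3 => h h3.1), mul_zero]

theorem card_YP (n m : ℕ) (hm : 0 < m) :
    (Nat.card {q : ℤ × ℤ × ℤ // YP n m q.1 q.2.1 q.2.2} : ℤ) = (RF n * SQ) m := by
  classical
  rw [← card_TT]
  congr 1
  have hf : ∀ q : {q : ℤ × ℤ × ℤ // YP n m q.1 q.2.1 q.2.2},
      (⟨(q.1.2.1.toNat, (q.1.1 ^ 2).toNat), q.1.2.2⟩ : Σ _ : ℕ × ℕ, ℤ) ∈ TT n m := by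
    rintro ⟨⟨e, a, h⟩, y⟩
    dsimp only at y ⊢
    obtain ⟨e0, a0, hm2, h0, h1, hh⟩ := y
    obtain ⟨e', rfl⟩ := Int.eq_ofNat_of_zero_le e0.le
    obtain ⟨a', rfl⟩ := Int.eq_ofNat_of_zero_le a0.le
    have hm3 : a' * e' ^ 2 = m := by exact_mod_cast hm2
    have e4 : (((e' : ℤ)) ^ 2).toNat = e' ^ 2 := by
      have : ((e' : ℤ)) ^ 2 = ((e' ^ 2 : ℕ) : ℤ) := by push_cast; rfl
      rw [this, Int.toNat_natCast]
    rw [TT, Finset.mem_sigma, mem_filter, mem_filter, mem_Ico, Nat.mem_divisorsAntidiagonal, e4,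
      Int.toNat_natCast]
    exact ⟨⟨⟨hm3, hm.ne'⟩, ⟨e', by ring⟩⟩, ⟨h0, h1⟩, hh⟩
  have hb : Function.Bijective (fun q : {q : ℤ × ℤ × ℤ // YP n m q.1 q.2.1 q.2.2} =>
      (⟨_, hf q⟩ : (TT n m : Finset _))) := by
    constructor
    · rintro ⟨⟨e, a, h⟩, y⟩ ⟨⟨e', a', h'⟩, y'⟩ he
      have h1 := congrArg Subtype.val he
      dsimp only at h1 y y'
      rw [Sigma.mk.injEq, Prod.mk.injEq, heq_eq_eq] at h1
      obtain ⟨⟨h2, h3⟩, h4⟩ := h1
      have a0 := y.a0
      have a0' := y'.a0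
      have e0 := y.e0
      have e0' := y'.e0
      have r1 : a = a' := by omega
      have r2 : e = e' := by
        have h5 : e ^ 2 = e' ^ 2 := by
          have p1 : 0 < e ^ 2 := by positivity
          have p2 : 0 < e' ^ 2 := by positivity
          omega
        exact (pow_left_inj₀ e0.le e0'.le two_ne_zero).1 h5
      subst r1 r2 h4
      rfl
    · rintro ⟨⟨⟨x, y⟩, h⟩, ht⟩
      have ht' := ht
      rw [TT, Finset.mem_sigma, mem_filter, mem_filter, mem_Ico, Nat.mem_divisorsAntidiagonal] at ht'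
      obtain ⟨⟨⟨t1, t2⟩, ⟨c, t3⟩⟩, ⟨t4, t5⟩, t6⟩ := ht'
      dsimp only at t1 t3 t4 t5 t6
      subst t3
      have hx : 0 < x := Nat.pos_of_ne_zero (by
        rintro rfl
        rw [zero_mul] at t1
        exact t2 t1.symm)
      have hc : 0 < c := Nat.pos_of_ne_zero (by
        rintro rfl
        rw [zero_mul, mul_zero] at t1
        exact t2 t1.symm)
      have hY : YP n m c x h := ⟨by exact_mod_cast hc, by exact_mod_cast hx, by
        rw [← t1]
        push_cast
        ring, t4, t5, t6⟩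
      refine ⟨⟨((c : ℤ), (x : ℤ), h), hY⟩, ?_⟩
      · apply Subtype.ext
        have e4 : (((c : ℤ)) ^ 2).toNat = c * c := by
          have : ((c : ℤ)) ^ 2 = ((c * c : ℕ) : ℤ) := by push_cast; ring
          rw [this, Int.toNat_natCast]
        dsimp only
        rw [e4, Int.toNat_natCast]
  rw [Nat.card_congr (Equiv.ofBijective _ hb), Nat.card_eq_fintype_card, Fintype.card_coe]

end Run7.h238.P
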