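import Mathlib
import Pool.Agent.N969.P15.Defs

/-!
# The number of square roots of `-n` modulo `4 a`
-/

set_option autoImplicit false

namespace Run7.h238.P

open Finset

/-- the number of square roots of `-n` modulo `4 a`, modulo `2 a` -/
noncomputable def rho (n a : ℕ) : ℕ := ((Ico (0 : ℤ) (2 * a)).filter fun h : ℤ => (4 * a : ℤ) ∣ h ^ 2 + n).card

theorem odd_root {n : ℕ} (hn : n % 4 = 3) {a h : ℤ} (hh : 4 * a ∣ h ^ 2 + n) : Odd h := by
  have h4 : (4 : ℤ) ∣ h ^ 2 + n := (Dvd.intro _ rfl).trans hh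
  rcases Int.even_or_odd h with he | ho
  · exfalso
    obtain ⟨k, rfl⟩ := he
    obtain ⟨c, hc⟩ := h4
    have : (n : ℤ) % 4 = 3 := by omega
    have e : (k + k) ^ 2 = 4 * k ^ 2 := by ring
    rw [e] at hc
    omega
  · exact ho

theorem root_congr {n a h k : ℤ} (hk : 2 * a ∣ k - h) : 4 * a ∣ h ^ 2 + n ↔ 4 * a ∣ k ^ 2 + n := by
  obtain ⟨t, ht⟩ := hk
  have e : k ^ 2 + n = (h ^ 2 + n) + 4 * a * (t * h + a * t ^ 2) := by
    have : k = h + 2 * a * t := by linarith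
    rw [this]
    ring
  rw [e]
  exact (dvd_add_left (Dvd.intro _ rfl)).symm

theorem eq_of_range {m x y : ℤ} (hx0 : 0 ≤ x) (hx1 : x < m) (hy0 : 0 ≤ y) (hy1 : y < m)
    (h : m ∣ x - y) : x = y := by
  obtain ⟨t, ht⟩ := h
  have : t = 0 := by
    by_contra hc
    rcases lt_or_gt_of_ne hc with h4 | h4
    · nlinarith
    · nlinarith
  rw [this, mul_zero] at ht
  linarith

theorem rho_mul {n : ℕ} (hn : n % 4 = 3) {a b : ℕ} (hab : a.Coprime b) :
    rho n (a * b) = rho n a * rho n b := by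
  rcases Nat.eq_zero_or_pos a with rfl | a0
  · simp [rho]
  rcases Nat.eq_zero_or_pos b with rfl | b0
  · simp [rho]
  unfold rho
  rw [← Finset.card_product]
  have ha0 : (0 : ℤ) < 2 * a := by positivity
  have hb0 : (0 : ℤ) < 2 * b := by positivity
  refine Finset.card_bij (fun h _ => (h % (2 * a), h % (2 * b))) ?_ ?_ ?_
  · intro h hh
    rw [mem_filter, mem_Ico] at hh
    rw [mem_product, mem_filter, mem_filter, mem_Ico, mem_Ico]
    push_cast at hh
    refine ⟨⟨⟨Int.emod_nonneg _ ha0.ne', Int.emod_lt_of_pos _ ha0⟩, ?_⟩,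
      ⟨Int.emod_nonneg _ hb0.ne', Int.emod_lt_of_pos _ hb0⟩, ?_⟩
    · rw [root_congr (k := h) (by
        refine ⟨h / (2 * a), ?_⟩
        have := Int.emod_add_mul_ediv h (2 * a)
        linarith)]
      exact (Dvd.intro (b : ℤ) (by ring)).trans hh.2
    · rw [root_congr (k := h) (by
        refine ⟨h / (2 * b), ?_⟩
        have := Int.emod_add_mul_ediv h (2 * b)
        linarith)]
      exact (Dvd.intro (a : ℤ) (by ring)).trans hh.2
  · intro h hh k hk he
    rw [mem_filter, mem_Ico] at hh hk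
    push_cast at hh hk
    have e1 : h % (2 * a) = k % (2 * a) := congrArg Prod.fst he
    have e2 : h % (2 * b) = k % (2 * b) := congrArg Prod.snd he
    have d1 : (2 * a : ℤ) ∣ h - k := Int.ModEq.dvd (show k ≡ h [ZMOD (2 * a)] from e1.symm)
    have d2 : (2 * b : ℤ) ∣ h - k := Int.ModEq.dvd (show k ≡ h [ZMOD (2 * b)] from e2.symm)
    refine eq_of_range hh.1.1 hh.1.2 hk.1.1 hk.1.2 ?_
    obtain ⟨s, hs⟩ := d1
    have hco : IsCoprime (b : ℤ) (a : ℤ) := (Nat.isCoprime_iff_coprime.2 hab).symm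
    have d3 : (b : ℤ) ∣ a * s := by
      have : (2 * b : ℤ) ∣ 2 * (a * s) := by
        rw [← mul_assoc, ← hs]
        exact d2
      exact (mul_dvd_mul_iff_left (two_ne_zero)).1 this
    obtain ⟨c, hc⟩ := hco.dvd_of_dvd_mul_left d3
    exact ⟨c, by rw [hs, hc]; ring⟩
  · rintro ⟨h1, h2⟩ h12
    rw [mem_product, mem_filter, mem_filter, mem_Ico, mem_Ico] at h12
    obtain ⟨⟨⟨a1, a2⟩, a3⟩, ⟨b1, b2⟩, b3⟩ := h12
    dsimp only at a1 a2 a3 b1 b2 b3
    obtain ⟨d, hd⟩ : ∃ d, h2 - h1 = 2 * d := by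
      obtain ⟨x, hx⟩ := odd_root hn a3
      obtain ⟨y, hy⟩ := odd_root hn b3
      exact ⟨y - x, by rw [hx, hy]; ring⟩
    obtain ⟨u, v, huv⟩ : IsCoprime (a : ℤ) (b : ℤ) := Nat.isCoprime_iff_coprime.2 hab
    set k : ℤ := h1 + 2 * a * (u * d) with hk
    have k1 : (2 * a : ℤ) ∣ k - h1 := ⟨u * d, by rw [hk]; ring⟩
    have k2 : (2 * b : ℤ) ∣ k - h2 := ⟨-(v * d), by
      rw [hk]
      linear_combination -hd + 2 * d * huv⟩
    have hab0 : (0 : ℤ) < 2 * (a * b) := by positivity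
    have r1 : (2 * (a * b) : ℤ) ∣ k - k % (2 * (a * b)) := ⟨k / (2 * (a * b)), by
      have := Int.emod_add_mul_ediv k (2 * (a * b))
      linarith⟩
    have r2 : (2 * a : ℤ) ∣ k % (2 * (a * b)) - h1 := by
      have := dvd_sub k1 ((Dvd.intro (b : ℤ) (by ring)).trans r1 : (2 * a : ℤ) ∣ _)
      have e : k - h1 - (k - k % (2 * (a * b))) = k % (2 * (a * b)) - h1 := by ring
      rwa [e] at this
    have r3 : (2 * b : ℤ) ∣ k % (2 * (a * b)) - h2 := by
      have := dvd_sub k2 ((Dvd.intro (a : ℤ) (by ring)).trans r1 : (2 * b : ℤ) ∣ _)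
      have e : k - h2 - (k - k % (2 * (a * b))) = k % (2 * (a * b)) - h2 := by ring
      rwa [e] at this
    refine ⟨k % (2 * (a * b)), ?_, ?_⟩
    · rw [mem_filter, mem_Ico]
      push_cast
      refine ⟨⟨Int.emod_nonneg _ hab0.ne', Int.emod_lt_of_pos _ hab0⟩, ?_⟩
      rw [root_congr r2] at a3
      rw [root_congr r3] at b3
      obtain ⟨c, hc⟩ := a3
      have b4 : (b : ℤ) ∣ a * c := by
        have : (4 * b : ℤ) ∣ 4 * (a * c) := by
          rw [← mul_assoc, ← hc]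
          exact b3
        exact (mul_dvd_mul_iff_left (four_ne_zero)).1 this
      obtain ⟨t, ht⟩ := (Nat.isCoprime_iff_coprime.2 hab).symm.dvd_of_dvd_mul_left b4
      exact ⟨t, by rw [hc, ht]; ring⟩
    · apply Prod.ext
      · refine eq_of_range (Int.emod_nonneg _ ha0.ne') (Int.emod_lt_of_pos _ ha0) a1 a2 ?_
        have e1 : (2 * a : ℤ) ∣ k % (2 * (a * b)) - k % (2 * (a * b)) % (2 * a) :=
          ⟨k % (2 * (a * b)) / (2 * a), by
            have := Int.emod_add_mul_ediv (k % (2 * (a * b))) (2 * a)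
            linarith⟩
        have := dvd_sub r2 e1
        have e : k % (2 * (a * b)) - h1 - (k % (2 * (a * b)) - k % (2 * (a * b)) % (2 * a)) =
          k % (2 * (a * b)) % (2 * a) - h1 := by ring
        rwa [e] at this
      · refine eq_of_range (Int.emod_nonneg _ hb0.ne') (Int.emod_lt_of_pos _ hb0) b1 b2 ?_
        have e1 : (2 * b : ℤ) ∣ k % (2 * (a * b)) - k % (2 * (a * b)) % (2 * b) :=
          ⟨k % (2 * (a * b)) / (2 * b), by
            have := Int.emod_add_mul_ediv (k % (2 * (a * b))) (2 * b)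
            linarith⟩
        have := dvd_sub r3 e1
        have e : k % (2 * (a * b)) - h2 - (k % (2 * (a * b)) - k % (2 * (a * b)) % (2 * b)) =
          k % (2 * (a * b)) % (2 * b) - h2 := by ring
        rwa [e] at this

theorem rho_one {n : ℕ} (hn : n % 4 = 3) : rho n 1 = 1 := by
  unfold rho
  have : ((Ico (0 : ℤ) (2 * (1 : ℕ))).filter fun h : ℤ => (4 * (1 : ℕ) : ℤ) ∣ h ^ 2 + n) = {1} := by
    ext h
    rw [mem_filter, mem_Ico, mem_singleton]
    push_cast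
    constructor
    · rintro ⟨⟨h0, h1⟩, h2⟩
      have := odd_root hn (a := 1) (by simpa using h2)
      obtain ⟨k, hk⟩ := this
      omega
    · rintro rfl
      refine ⟨⟨by norm_num, by norm_num⟩, ?_⟩
      norm_num
      omega
  rw [this, card_singleton]

/-- the symbol -/
noncomputable def chi (n p : ℕ) : ℤ :=
  if p = 2 then (if n % 8 = 7 then 1 else -1) else jacobiSym (-(n : ℤ)) p

theorem exists_base {n p : ℕ} (hp : p.Prime) (hn : n % 4 = 3) (h1 : chi n p = 1) :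
    ∃ h : ℤ, (4 * p : ℤ) ∣ h ^ 2 + n := by
  unfold chi at h1
  split_ifs at h1 with h2 h3
  · refine ⟨1, ?_⟩
    subst h2
    push_cast
    omega
  · have : Fact p.Prime := ⟨hp⟩
    have hodd : Odd p := hp.odd_of_ne_two h2
    rw [← jacobiSym.legendreSym.to_jacobiSym] at h1
    have hne : ((-(n : ℤ) : ℤ) : ZMod p) ≠ 0 := by
      intro h0
      rw [(legendreSym.eq_zero_iff p (-(n : ℤ))).2 h0] at h1
      norm_num at h1
    obtain ⟨x, hx⟩ := (legendreSym.eq_one_iff p hne).1 h1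
    -- lift
    obtain ⟨y, rfl⟩ := ZMod.natCast_zmod_surjective x
    have hd : (p : ℤ) ∣ (y : ℤ) ^ 2 + n := by
      rw [← ZMod.intCast_zmod_eq_zero_iff_dvd]
      push_cast at hx ⊢
      rw [pow_two, ← hx]
      ring
    have key : ∀ h : ℤ, Odd h → (p : ℤ) ∣ h ^ 2 + n → (4 * p : ℤ) ∣ h ^ 2 + n := by
      intro h ho hh
      have h4 : (4 : ℤ) ∣ h ^ 2 + n := by
        obtain ⟨k, hk⟩ := ho
        have e : h ^ 2 = 4 * (k ^ 2 + k) + 1 := by rw [hk]; ring
        rw [e]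
        omega
      have hco : IsCoprime (4 : ℤ) (p : ℤ) := by
        have : Nat.Coprime 4 p := by
          have : Nat.Coprime 2 p := (Nat.coprime_primes Nat.prime_two hp).2 (Ne.symm h2)
          exact Nat.Coprime.pow_left 2 this
        exact_mod_cast Nat.isCoprime_iff_coprime.2 this
      exact hco.mul_dvd h4 hh
    rcases Int.even_or_odd (y : ℤ) with he | ho
    · refine ⟨y + p, key _ (he.add_odd (by exact_mod_cast hodd)) ?_⟩
      have e : ((y : ℤ) + p) ^ 2 + n = (y : ℤ) ^ 2 + n + p * (2 * y + p) := by ring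
      rw [e]
      exact dvd_add hd (Dvd.intro _ rfl)
    · exact ⟨y, key _ ho hd⟩

theorem exists_root {n p : ℕ} (hp : p.Prime) (hn : n % 4 = 3) (hpn : ¬ p ∣ n) (h1 : chi n p = 1)
    (k : ℕ) : ∃ h : ℤ, (4 * p ^ (k + 1) : ℤ) ∣ h ^ 2 + n := by
  induction k with
  | zero =>
    obtain ⟨h, hh⟩ := exists_base hp hn h1
    exact ⟨h, by simpa using hh⟩
  | succ k ih =>
    obtain ⟨h, t, ht⟩ := ih
    have hp' : Prime (p : ℤ) := Nat.prime_iff_prime_int.1 hp
    have hph : ¬ (p : ℤ) ∣ h := by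
      intro hd
      have h2 : (p : ℤ) ∣ n := by
        have h3 : (p : ℤ) ∣ h ^ 2 + n := by
          rw [ht]
          exact Dvd.intro (4 * p ^ k * t) (by ring)
        exact (dvd_add_right (dvd_pow hd two_ne_zero)).1 h3
      exact hpn (by exact_mod_cast h2)
    obtain ⟨u, v, huv⟩ : IsCoprime h (p : ℤ) := ((Prime.coprime_iff_not_dvd hp').2 hph).symm
    refine ⟨h + 2 * p ^ (k + 1) * (-(t * u)), t * v + p ^ k * (t * u) ^ 2, ?_⟩
    have e : (h + 2 * p ^ (k + 1) * (-(t * u))) ^ 2 + n = (h ^ 2 + n) + 4 * p ^ (k + 1) * (-(h * t * u)) +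
      4 * p ^ (k + 1) * p ^ (k + 1) * (t * u) ^ 2 := by ring
    rw [e, ht]
    have e2 : (p : ℤ) ^ (k + 1 + 1) = p ^ (k + 1) * p := by ring
    rw [e2]
    linear_combination (-(4 * (p : ℤ) ^ (k + 1) * t)) * huv

theorem rho_split {n p : ℕ} (hp : p.Prime) (hn : n % 4 = 3) (hpn : ¬ p ∣ n) (h1 : chi n p = 1)
    (k : ℕ) : rho n (p ^ (k + 1)) = 2 := by
  obtain ⟨h0, hh0⟩ := exists_root hp hn hpn h1 k
  have hp' : Prime (p : ℤ) := Nat.prime_iff_prime_int.1 hp
  have hP : (0 : ℤ) < 2 * (p : ℤ) ^ (k + 1) := by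
    have := hp.pos
    positivity
  have hph : ¬ (p : ℤ) ∣ h0 := by
    intro hd
    have h2 : (p : ℤ) ∣ n := by
      have h3 : (p : ℤ) ∣ h0 ^ 2 + n :=
        (Dvd.intro (4 * (p : ℤ) ^ k) (by ring) : (p : ℤ) ∣ 4 * (p : ℤ) ^ (k + 1)).trans hh0
      exact (dvd_add_right (dvd_pow hd two_ne_zero)).1 h3
    exact hpn (by exact_mod_cast h2)
  have o0 := odd_root hn hh0
  have em : ∀ x : ℤ, (2 * (p : ℤ) ^ (k + 1)) ∣ x % (2 * (p : ℤ) ^ (k + 1)) - x := fun x =>
    ⟨-(x / (2 * (p : ℤ) ^ (k + 1))), by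
      have := Int.emod_add_mul_ediv x (2 * (p : ℤ) ^ (k + 1))
      linarith⟩
  have hne : h0 % (2 * (p : ℤ) ^ (k + 1)) ≠ (-h0) % (2 * (p : ℤ) ^ (k + 1)) := by
    intro he
    have h2 : (2 * (p : ℤ) ^ (k + 1)) ∣ -h0 - h0 := Int.ModEq.dvd he
    have h3 : (p : ℤ) ∣ h0 := by
      have h4 : (2 * (p : ℤ) ^ (k + 1)) ∣ 2 * (-h0) := by
        have e : -h0 - h0 = 2 * (-h0) := by ring
        rwa [e] at h2
      have h5 : (p : ℤ) ^ (k + 1) ∣ -h0 := (mul_dvd_mul_iff_left (two_ne_zero)).1 h4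
      exact (Int.dvd_neg).1 ((dvd_pow_self _ (Nat.succ_ne_zero k)).trans h5)
    exact hph h3
  unfold rho
  refine Eq.trans ?_ (Finset.card_pair hne)
  congr 1
  ext h
  rw [mem_filter, mem_Ico, mem_insert, mem_singleton]
  push_cast
  constructor
  · rintro ⟨⟨a1, a2⟩, a3⟩
    have o1 := odd_root hn a3
    obtain ⟨x, hx⟩ : ∃ x, h - h0 = 2 * x := by
      obtain ⟨s, hs⟩ := o0
      obtain ⟨t, ht⟩ := o1
      exact ⟨t - s, by rw [hs, ht]; ring⟩
    obtain ⟨y, hy⟩ : ∃ y, h + h0 = 2 * y := ⟨x + h0, by linarith⟩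
    have h2 : (p : ℤ) ^ (k + 1) ∣ x * y := by
      have h3 : (4 * (p : ℤ) ^ (k + 1)) ∣ 4 * (x * y) := by
        have e : 4 * (x * y) = (h ^ 2 + n) - (h0 ^ 2 + n) := by
          have : 4 * (x * y) = (2 * x) * (2 * y) := by ring
          rw [this, ← hx, ← hy]
          ring
        rw [e]
        exact dvd_sub a3 hh0
      exact (mul_dvd_mul_iff_left (four_ne_zero)).1 h3
    by_cases hpx : (p : ℤ) ∣ x
    · left
      have hpy : ¬ (p : ℤ) ∣ y := by
        intro hd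
        have e : h0 = y - x := by linarith
        exact hph (e ▸ dvd_sub hd hpx)
      have h3 : (p : ℤ) ^ (k + 1) ∣ x := hp'.pow_dvd_of_dvd_mul_right _ hpy h2
      refine eq_of_range a1 a2 (Int.emod_nonneg _ hP.ne') (Int.emod_lt_of_pos _ hP) ?_
      have h4 : (2 * (p : ℤ) ^ (k + 1)) ∣ h - h0 := by
        rw [hx]
        exact mul_dvd_mul_left _ h3
      have := dvd_sub h4 (em h0)
      have e : h - h0 - (h0 % (2 * (p : ℤ) ^ (k + 1)) - h0) = h - h0 % (2 * (p : ℤ) ^ (k + 1)) := by ring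
      rwa [e] at this
    · right
      have h3 : (p : ℤ) ^ (k + 1) ∣ y := hp'.pow_dvd_of_dvd_mul_left _ hpx h2
      refine eq_of_range a1 a2 (Int.emod_nonneg _ hP.ne') (Int.emod_lt_of_pos _ hP) ?_
      have h4 : (2 * (p : ℤ) ^ (k + 1)) ∣ h - (-h0) := by
        rw [sub_neg_eq_add, hy]
        exact mul_dvd_mul_left _ h3
      have := dvd_sub h4 (em (-h0))
      have e : h - (-h0) - ((-h0) % (2 * (p : ℤ) ^ (k + 1)) - (-h0)) =
        h - (-h0) % (2 * (p : ℤ) ^ (k + 1)) := by ring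
      rwa [e] at this
  · rintro (rfl | rfl)
    · refine ⟨⟨Int.emod_nonneg _ hP.ne', Int.emod_lt_of_pos _ hP⟩, ?_⟩
      exact (root_congr (em h0)).1 hh0
    · refine ⟨⟨Int.emod_nonneg _ hP.ne', Int.emod_lt_of_pos _ hP⟩, ?_⟩
      refine (root_congr (em (-h0))).1 ?_
      rw [neg_sq]
      exact hh0

theorem chi_cases {n p : ℕ} (hp : p.Prime) (hpn : ¬ p ∣ n) : chi n p = 1 ∨ chi n p = -1 := by
  unfold chi
  split_ifs with h1 h2
  · left; rfl
  · right; rfl
  · have : Fact p.Prime := ⟨hp⟩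
    refine jacobiSym.eq_one_or_neg_one ?_
    rw [Int.gcd_comm]
    have : Int.gcd (p : ℤ) (-(n : ℤ)) = Nat.gcd p n := by
      simp [Int.gcd]
    rw [this]
    exact (Nat.Prime.coprime_iff_not_dvd hp).2 hpn

theorem rho_inert {n p : ℕ} (hp : p.Prime) (hn : n % 4 = 3) (hpn : ¬ p ∣ n) (h1 : chi n p = -1)
    (k : ℕ) : rho n (p ^ (k + 1)) = 0 := by
  unfold rho
  rw [Finset.card_eq_zero, Finset.filter_eq_empty_iff]
  intro h _ hh
  push_cast at hh
  unfold chi at h1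
  split_ifs at h1 with h2 h3
  · subst h2
    obtain ⟨t, ht⟩ := odd_root hn hh
    obtain ⟨c, hc⟩ := hh
    have e1 : h ^ 2 + n = 4 * (t ^ 2 + t) + 1 + n := by rw [ht]; ring
    have e2 : (4 * ((2 : ℕ) : ℤ) ^ (k + 1)) * c = 8 * (2 ^ k * c) := by push_cast; ring
    rw [e1, e2] at hc
    have h5 : Even (t ^ 2 + t) := by
      have e : t ^ 2 + t = t * (t + 1) := by ring
      rw [e]
      exact Int.even_mul_succ_self t
    obtain ⟨s, hs⟩ := h5
    rw [hs] at hc
    omega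
  · have : Fact p.Prime := ⟨hp⟩
    rw [← jacobiSym.legendreSym.to_jacobiSym] at h1
    have h4 : (p : ℤ) ∣ h ^ 2 + n :=
      (Dvd.intro (4 * (p : ℤ) ^ k) (by ring) : (p : ℤ) ∣ 4 * (p : ℤ) ^ (k + 1)).trans hh
    have h5 : IsSquare ((-(n : ℤ) : ℤ) : ZMod p) := by
      refine ⟨(h : ZMod p), ?_⟩
      have h6 := (ZMod.intCast_zmod_eq_zero_iff_dvd (h ^ 2 + n) p).2 h4
      push_cast at h6 ⊢
      linear_combination -h6
    exact (legendreSym.eq_neg_one_iff p).1 h1 h5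

theorem rho_ram_one {n p : ℕ} (hp : p.Prime) (hn : n % 4 = 3) (hpn : p ∣ n) : rho n p = 1 := by
  have p2 : p ≠ 2 := by
    rintro rfl
    omega
  have hodd : Odd p := hp.odd_of_ne_two p2
  have hp0 := hp.pos
  have hp' : Prime (p : ℤ) := Nat.prime_iff_prime_int.1 hp
  unfold rho
  rw [← Finset.card_singleton (p : ℤ)]
  congr 1
  ext h
  rw [mem_filter, mem_Ico, mem_singleton]
  constructor
  · rintro ⟨⟨a1, a2⟩, a3⟩
    obtain ⟨t, ht⟩ := odd_root hn a3
    have h4 : (p : ℤ) ∣ h ^ 2 + n := (Dvd.intro 4 (by ring)).trans a3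
    have h5 : (p : ℤ) ∣ h := by
      have h6 : (p : ℤ) ∣ h ^ 2 := (dvd_add_left (by exact_mod_cast hpn)).1 h4
      exact hp'.dvd_of_dvd_pow h6
    obtain ⟨c, hc⟩ := h5
    have c0 : 0 ≤ c := by
      by_contra h7
      push Not at h7
      nlinarith
    have c1 : c < 2 := by
      by_contra h7
      push Not at h7
      nlinarith
    interval_cases c
    · omega
    · linarith
  · rintro rfl
    refine ⟨⟨by positivity, by omega⟩, ?_⟩
    obtain ⟨k, hk⟩ := hodd
    have h4 : (4 : ℤ) ∣ (p : ℤ) ^ 2 + n := by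
      have e : (p : ℤ) ^ 2 = 4 * ((k : ℤ) ^ 2 + k) + 1 := by
        rw [hk]
        push_cast
        ring
      rw [e]
      omega
    have hco : IsCoprime (4 : ℤ) (p : ℤ) := by
      have : Nat.Coprime 4 p := by
        have : Nat.Coprime 2 p := (Nat.coprime_primes Nat.prime_two hp).2 (Ne.symm p2)
        exact Nat.Coprime.pow_left 2 this
      exact_mod_cast Nat.isCoprime_iff_coprime.2 this
    refine hco.mul_dvd h4 (dvd_add (dvd_pow_self _ two_ne_zero) (by exact_mod_cast hpn))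

theorem rho_ram {n p : ℕ} (hp : p.Prime) (hs : Squarefree n) (hpn : p ∣ n)
    (k : ℕ) : rho n (p ^ (k + 2)) = 0 := by
  unfold rho
  rw [Finset.card_eq_zero, Finset.filter_eq_empty_iff]
  intro h _ hh
  push_cast at hh
  have hp' : Prime (p : ℤ) := Nat.prime_iff_prime_int.1 hp
  have h4 : (p : ℤ) ^ 2 ∣ h ^ 2 + n :=
    (Dvd.intro (4 * (p : ℤ) ^ k) (by ring) : (p : ℤ) ^ 2 ∣ 4 * (p : ℤ) ^ (k + 2)).trans hh
  have h5 : (p : ℤ) ∣ h := by
    have h6 : (p : ℤ) ∣ h ^ 2 :=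
      (dvd_add_left (by exact_mod_cast hpn)).1 ((dvd_pow_self _ two_ne_zero).trans h4)
    exact hp'.dvd_of_dvd_pow h6
  have h6 : (p : ℤ) ^ 2 ∣ n := (dvd_add_right (pow_dvd_pow_of_dvd h5 2)).1 h4
  have h7 : p * p ∣ n := by
    rw [← pow_two]
    exact_mod_cast h6
  have := hs p h7
  rw [Nat.isUnit_iff] at this
  exact hp.one_lt.ne' this

/-- the local values -/
theorem rho_pow {n p : ℕ} (hp : p.Prime) (hn : n % 4 = 3) (hs : Squarefree n) (k : ℕ) :
    (rho n (p ^ (k + 1)) : ℤ) = chi n p ^ k * (1 + chi n p) := by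
  by_cases hpn : p ∣ n
  · have hc : chi n p = 0 := by
      unfold chi
      rw [if_neg (by
        rintro rfl
        omega)]
      have : Fact p.Prime := ⟨hp⟩
      rw [← jacobiSym.legendreSym.to_jacobiSym, legendreSym.eq_zero_iff,
        ZMod.intCast_zmod_eq_zero_iff_dvd]
      exact (dvd_neg).2 (by exact_mod_cast hpn)
    rw [hc]
    rcases k with _ | k
    · rw [zero_add, pow_one, rho_ram_one hp hn hpn]
      norm_num
    · rw [show k + 1 + 1 = k + 2 from rfl, rho_ram hp hs hpn]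
      simp
  · rcases chi_cases hp hpn with h1 | h1
    · rw [rho_split hp hn hpn h1, h1]
      norm_num
    · rw [rho_inert hp hn hpn h1, h1]
      norm_num

end Run7.h238.P
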