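import Pool.Agent.Run7.h238.P.Cv

/-!
# The number of the parameters `(z, g)`
-/

set_option autoImplicit false

namespace Run7.h238.P

open Finset
open Pool.Agent.Z700 (hh fac)

/-- the conditions on `(z, g)` -/
structure ZP (n b e a h z g : ℤ) : Prop where
  z0 : 0 ≤ z
  z1 : z < n
  g0 : 0 ≤ g
  g1 : g < 2 * a
  zg : 2 * a ∣ z + h * g
  cc : 4 * a * n ∣ z ^ 2 + n * g ^ 2 + 20 * a
  bz : n ∣ e * z + b

/-- the local condition -/
def Lc (n b e a : ℤ) (p : ℕ) (c : ℤ) : Prop :=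
  if (p : ℤ) ∣ a then (p : ℤ) ^ 2 ∣ n * c ^ 2 + 20 * a else ((p : ℤ) ∣ c ^ 2 + 20 * a ∧ (p : ℤ) ∣ e * c + b)

open scoped Classical in
/-- the local coordinate -/
noncomputable def co (a : ℤ) (p : ℕ) (z g : ℤ) : ℤ := if (p : ℤ) ∣ a then g else z

variable {n : ℕ} {b e a h : ℤ}

theorem F0 (hs : Squarefree n) {p : ℕ} (hp : p ∈ n.primeFactors) : ¬ (p : ℤ) ^ 2 ∣ n := by
  intro h6
  have h7 : p * p ∣ n := by
    rw [← pow_two]
    exact_mod_cast h6
  have := hs p h7
  rw [Nat.isUnit_iff] at this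
  exact (Nat.prime_of_mem_primeFactors hp).one_lt.ne' this

theorem F1 (hh : 4 * a ∣ h ^ 2 + n) {p : ℕ} (hp : p ∈ n.primeFactors) (ha : (p : ℤ) ∣ a) :
    (p : ℤ) ∣ h := by
  have hp' : Prime (p : ℤ) := Nat.prime_iff_prime_int.1 (Nat.prime_of_mem_primeFactors hp)
  have h1 : (p : ℤ) ∣ h ^ 2 + n := (ha.trans (Dvd.intro_left 4 rfl)).trans hh
  have h2 : (p : ℤ) ∣ n := by exact_mod_cast Nat.dvd_of_mem_primeFactors hp
  exact hp'.dvd_of_dvd_pow ((dvd_add_left h2).1 h1)

theorem F2 (hs : Squarefree n) (hh : 4 * a ∣ h ^ 2 + n) {p : ℕ} (hp : p ∈ n.primeFactors) :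
    ¬ (p : ℤ) ^ 2 ∣ a := by
  intro ha
  have h1 : (p : ℤ) ^ 2 ∣ h ^ 2 + n := (ha.trans (Dvd.intro_left 4 rfl)).trans hh
  have h2 : (p : ℤ) ∣ h := F1 hh hp ((dvd_pow_self _ two_ne_zero).trans ha)
  exact F0 hs hp ((dvd_add_right (pow_dvd_pow_of_dvd h2 2)).1 h1)

theorem F3 (hh : 4 * a ∣ h ^ 2 + n) {p : ℕ} (hp : p ∈ n.primeFactors) (ha : (p : ℤ) ∣ a) {z g : ℤ}
    (hz : 2 * a ∣ z + h * g) : (p : ℤ) ∣ z := by
  have h1 : (p : ℤ) ∣ z + h * g := (ha.trans (Dvd.intro_left 2 rfl)).trans hz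
  exact (dvd_add_left ((F1 hh hp ha).mul_right g)).1 h1

theorem n_dvd (hs : Squarefree n) {x : ℤ} (h : ∀ p ∈ n.primeFactors, (p : ℤ) ∣ x) : (n : ℤ) ∣ x := by
  rw [Int.natCast_dvd]
  rw [← Nat.prod_primeFactors_of_squarefree hs]
  refine Finset.prod_primes_dvd _ (fun p hp => (Nat.prime_of_mem_primeFactors hp).prime) fun p hp => ?_
  have := h p hp
  rwa [Int.natCast_dvd] at this

theorem p_ne2 (hn : n % 4 = 3) {p : ℕ} (hp : p ∈ n.primeFactors) : p ≠ 2 := by
  rintro rfl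
  have := Nat.dvd_of_mem_primeFactors hp
  omega

theorem p_ndvd4 (hn : n % 4 = 3) {p : ℕ} (hp : p ∈ n.primeFactors) : ¬ (p : ℤ) ∣ 4 := by
  intro h1
  have hp0 := Nat.prime_of_mem_primeFactors hp
  have h2 : p ∣ 2 ^ 2 := by
    have : ((2 ^ 2 : ℕ) : ℤ) = 4 := by norm_num
    rw [← this] at h1
    exact_mod_cast h1
  have h3 := hp0.dvd_of_dvd_pow h2
  rw [Nat.prime_dvd_prime_iff_eq hp0 Nat.prime_two] at h3
  exact p_ne2 hn hp h3

theorem crit (hn : n % 4 = 3) (hs : Squarefree n) (a0 : 0 < a) (hh : 4 * a ∣ h ^ 2 + n)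
    (hb : (n : ℤ) ∣ 20 * a * e ^ 2 + b ^ 2) {z g : ℤ} (hz : 2 * a ∣ z + h * g) :
    (4 * a * n ∣ z ^ 2 + n * g ^ 2 + 20 * a ∧ (n : ℤ) ∣ e * z + b) ↔
      ∀ p ∈ n.primeFactors, Lc n b e a p (co a p z g) := by
  constructor
  · rintro ⟨h1, h2⟩ p hp
    have hpn : (p : ℤ) ∣ n := by exact_mod_cast Nat.dvd_of_mem_primeFactors hp
    unfold Lc co
    by_cases ha : (p : ℤ) ∣ a
    · rw [if_pos ha, if_pos ha]
      have h3 : (p : ℤ) ^ 2 ∣ z ^ 2 + n * g ^ 2 + 20 * a := by
        refine Dvd.dvd.trans ?_ h1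
        rw [pow_two, mul_assoc 4 a]
        exact (mul_dvd_mul ha hpn).mul_left 4
      have h4 : (p : ℤ) ^ 2 ∣ z ^ 2 := pow_dvd_pow_of_dvd (F3 hh hp ha hz) 2
      rw [add_assoc] at h3
      exact (dvd_add_right h4).1 h3
    · rw [if_neg ha, if_neg ha]
      refine ⟨?_, hpn.trans h2⟩
      have h3 : (p : ℤ) ∣ z ^ 2 + n * g ^ 2 + 20 * a := (hpn.mul_left (4 * a)).trans h1
      have h4 : (p : ℤ) ∣ n * g ^ 2 := hpn.mul_right _
      have e1 : z ^ 2 + n * g ^ 2 + 20 * a = n * g ^ 2 + (z ^ 2 + 20 * a) := by ring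
      rw [e1] at h3
      exact (dvd_add_right h4).1 h3
  · intro hl
    obtain ⟨W, hW⟩ : ∃ W, z ^ 2 + n * g ^ 2 = 4 * a * W := by
      obtain ⟨f, hf⟩ := hz
      obtain ⟨b', hb'⟩ := hh
      refine ⟨b' * g ^ 2 - f * h * g + a * f ^ 2, ?_⟩
      have e1 : z = 2 * a * f - h * g := by linarith
      rw [e1]
      linear_combination g ^ 2 * hb'
    constructor
    · have h1 : (n : ℤ) ∣ W + 5 := by
        refine n_dvd hs fun p hp => ?_
        have hpn : (p : ℤ) ∣ n := by exact_mod_cast Nat.dvd_of_mem_primeFactors hp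
        have hp' : Prime (p : ℤ) := Nat.prime_iff_prime_int.1 (Nat.prime_of_mem_primeFactors hp)
        have h2 := hl p hp
        unfold Lc co at h2
        by_cases ha : (p : ℤ) ∣ a
        · rw [if_pos ha, if_pos ha] at h2
          have h3 : (p : ℤ) ^ 2 ∣ 4 * a * (W + 5) := by
            have e1 : 4 * a * (W + 5) = z ^ 2 + (n * g ^ 2 + 20 * a) := by
              linear_combination -hW
            rw [e1]
            exact dvd_add (pow_dvd_pow_of_dvd (F3 hh hp ha hz) 2) h2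
          obtain ⟨a', ha'⟩ := ha
          have h4 : ¬ (p : ℤ) ∣ a' := by
            intro h5
            obtain ⟨a'', rfl⟩ := h5
            exact F2 hs hh hp ⟨a'', by rw [ha']; ring⟩
          have h5 : (p : ℤ) ∣ 4 * a' * (W + 5) := by
            have e1 : 4 * a * (W + 5) = p * (4 * a' * (W + 5)) := by rw [ha']; ring
            rw [e1, pow_two] at h3
            exact (mul_dvd_mul_iff_left hp'.ne_zero).1 h3
          rcases hp'.dvd_or_dvd h5 with h6 | h6
          · rcases hp'.dvd_or_dvd h6 with h7 | h7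
            · exact absurd h7 (p_ndvd4 hn hp)
            · exact absurd h7 h4
          · exact h6
        · rw [if_neg ha, if_neg ha] at h2
          have h3 : (p : ℤ) ∣ 4 * a * (W + 5) := by
            have e1 : 4 * a * (W + 5) = n * g ^ 2 + (z ^ 2 + 20 * a) := by
              linear_combination -hW
            rw [e1]
            exact dvd_add (hpn.mul_right _) h2.1
          rcases hp'.dvd_or_dvd h3 with h6 | h6
          · rcases hp'.dvd_or_dvd h6 with h7 | h7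
            · exact absurd h7 (p_ndvd4 hn hp)
            · exact absurd h7 ha
          · exact h6
      have e1 : z ^ 2 + n * g ^ 2 + 20 * a = 4 * a * (W + 5) := by
        linear_combination hW
      rw [e1]
      exact mul_dvd_mul_left _ h1
    · refine n_dvd hs fun p hp => ?_
      have hpn : (p : ℤ) ∣ n := by exact_mod_cast Nat.dvd_of_mem_primeFactors hp
      have hp' : Prime (p : ℤ) := Nat.prime_iff_prime_int.1 (Nat.prime_of_mem_primeFactors hp)
      have h2 := hl p hp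
      unfold Lc co at h2
      by_cases ha : (p : ℤ) ∣ a
      · have h3 : (p : ℤ) ∣ b := by
          have h4 : (p : ℤ) ∣ 20 * a * e ^ 2 := (ha.mul_left 20).mul_right _
          exact hp'.dvd_of_dvd_pow ((dvd_add_right h4).1 (hpn.trans hb))
        exact dvd_add ((F3 hh hp ha hz).mul_left e) h3
      · rw [if_neg ha, if_neg ha] at h2
        exact h2.2

theorem Lc_congr {p : ℕ} (hpn : (p : ℤ) ∣ n) {c c' : ℤ} (hc : (p : ℤ) ∣ c' - c) :
    Lc n b e a p c → Lc n b e a p c' := by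
  obtain ⟨t, ht⟩ := hc
  have e0 : c' = c + p * t := by linarith
  unfold Lc
  split_ifs with ha
  · intro h1
    have e1 : n * c' ^ 2 + 20 * a = (n * c ^ 2 + 20 * a) + n * p * (t * (2 * c + p * t)) := by
      rw [e0]
      ring
    rw [e1]
    refine dvd_add h1 (Dvd.dvd.mul_right ?_ _)
    rw [pow_two]
    exact mul_dvd_mul_right hpn _
  · rintro ⟨h1, h2⟩
    refine ⟨?_, ?_⟩
    · have e1 : c' ^ 2 + 20 * a = (c ^ 2 + 20 * a) + p * (t * (2 * c + p * t)) := by
        rw [e0]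
        ring
      rw [e1]
      exact dvd_add h1 (Dvd.intro _ rfl)
    · have e1 : e * c' + b = (e * c + b) + p * (e * t) := by
        rw [e0]
        ring
      rw [e1]
      exact dvd_add h2 (Dvd.intro _ rfl)

/-- the local coordinates determine `(z, g)` -/
theorem inj_loc (hn : n % 4 = 3) (hs : Squarefree n) (a0 : 0 < a) (hh : 4 * a ∣ h ^ 2 + n)
    {z g z' g' : ℤ} (z0 : 0 ≤ z) (z1 : z < n) (g0 : 0 ≤ g) (g1 : g < 2 * a) (z0' : 0 ≤ z')
    (z1' : z' < n) (g0' : 0 ≤ g') (g1' : g' < 2 * a) (hz : 2 * a ∣ z + h * g)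
    (hz' : 2 * a ∣ z' + h * g') (hc : ∀ p ∈ n.primeFactors, (p : ℤ) ∣ co a p z g - co a p z' g') :
    z = z' ∧ g = g' := by
  have ez : z = z' := by
    refine eq_of_range z0 z1 z0' z1' (n_dvd hs fun p hp => ?_)
    have h1 := hc p hp
    unfold co at h1
    by_cases ha : (p : ℤ) ∣ a
    · exact dvd_sub (F3 hh hp ha hz) (F3 hh hp ha hz')
    · rwa [if_neg ha, if_neg ha] at h1
  subst ez
  refine ⟨rfl, eq_of_range g0 g1 g0' g1' ?_⟩
  have h1 : 2 * a ∣ h * (g - g') := by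
    have := dvd_sub hz hz'
    have e1 : z + h * g - (z + h * g') = h * (g - g') := by ring
    rwa [e1] at this
  rw [← Int.natAbs_dvd_natAbs, Nat.dvd_iff_prime_pow_dvd_dvd]
  intro q k hq hqk
  rcases Nat.eq_zero_or_pos k with rfl | k0
  · simp
  have hq' : Prime (q : ℤ) := Nat.prime_iff_prime_int.1 hq
  have h2 : (q : ℤ) ^ k ∣ 2 * a := by
    have : ((q ^ k : ℕ) : ℤ) ∣ 2 * a := Int.natCast_dvd.2 hqk
    exact_mod_cast this
  suffices h3 : (q : ℤ) ^ k ∣ g - g' by
    have : ((q ^ k : ℕ) : ℤ) ∣ g - g' := by exact_mod_cast h3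
    exact Int.natCast_dvd.1 this
  by_cases hqh : (q : ℤ) ∣ h
  · have q2 : q ≠ 2 := by
      rintro rfl
      obtain ⟨s, hs'⟩ := odd_root hn hh
      omega
    have h3 : (q : ℤ) ∣ a := by
      have h4 : (q : ℤ) ∣ 2 * a := (dvd_pow_self _ k0.ne').trans h2
      rcases hq'.dvd_or_dvd h4 with h5 | h5
      · exfalso
        have : q ∣ 2 := by exact_mod_cast h5
        rw [Nat.prime_dvd_prime_iff_eq hq Nat.prime_two] at this
        exact q2 this
      · exact h5
    have h4 : q ∣ n := by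
      have h5 : (q : ℤ) ∣ h ^ 2 + n := (h3.trans (Dvd.intro_left 4 rfl)).trans hh
      have h6 : (q : ℤ) ∣ n := (dvd_add_right (dvd_pow hqh two_ne_zero)).1 h5
      exact_mod_cast h6
    have hqn : q ∈ n.primeFactors := Nat.mem_primeFactors.2 ⟨hq, h4, hs.ne_zero⟩
    have h5 : k = 1 := by
      by_contra hk
      have h6 : (q : ℤ) ^ 2 ∣ 2 * a := (pow_dvd_pow _ (by omega)).trans h2
      have h7 : (q : ℤ) ^ 2 ∣ a := by
        refine hq'.pow_dvd_of_dvd_mul_left 2 ?_ h6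
        intro h8
        have : q ∣ 2 := by exact_mod_cast h8
        rw [Nat.prime_dvd_prime_iff_eq hq Nat.prime_two] at this
        exact q2 this
      exact F2 hs hh hqn h7
    subst h5
    have h6 := hc q hqn
    unfold co at h6
    rw [if_pos h3, if_pos h3] at h6
    rwa [pow_one]
  · exact hq'.pow_dvd_of_dvd_mul_left k hqh (h2.trans h1)

/-- Chinese remainders -/
theorem crt (s : Finset ℕ) (hs : ∀ p ∈ s, p.Prime) (c : ℕ → ℤ) :
    ∃ x : ℤ, ∀ p ∈ s, (p : ℤ) ∣ x - c p := by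
  classical
  induction s using Finset.induction_on with
  | empty => exact ⟨0, fun p hp => absurd hp (Finset.notMem_empty p)⟩
  | insert q s hq ih =>
    obtain ⟨x, hx⟩ := ih fun p hp => hs p (mem_insert_of_mem hp)
    have hco : IsCoprime (∏ p ∈ s, (p : ℤ)) (q : ℤ) := by
      refine IsCoprime.prod_left fun p hp => ?_
      refine Nat.isCoprime_iff_coprime.2 ((Nat.coprime_primes (hs p (mem_insert_of_mem hp))
        (hs q (mem_insert_self _ _))).2 ?_)
      rintro rfl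
      exact hq hp
    obtain ⟨u, v, huv⟩ := hco
    refine ⟨x + (∏ p ∈ s, (p : ℤ)) * (u * (c q - x)), fun p hp => ?_⟩
    rcases mem_insert.1 hp with rfl | hp
    · exact ⟨v * (x - c p), by linear_combination (c p - x) * huv⟩
    · have h1 : (p : ℤ) ∣ ∏ p ∈ s, (p : ℤ) := Finset.dvd_prod_of_mem _ hp
      have e1 : x + (∏ p ∈ s, (p : ℤ)) * (u * (c q - x)) - c p = (x - c p) +
        (∏ p ∈ s, (p : ℤ)) * (u * (c q - x)) := by ring
      rw [e1]
      exact dvd_add (hx p hp) (h1.mul_right _)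

theorem prod_dvd' (s : Finset ℕ) (hs : ∀ p ∈ s, p.Prime) {x : ℤ} (h : ∀ p ∈ s, (p : ℤ) ∣ x) :
    (∏ p ∈ s, (p : ℤ)) ∣ x := by
  have : (∏ p ∈ s, (p : ℤ)) = ((∏ p ∈ s, p : ℕ) : ℤ) := by push_cast; rfl
  rw [this, Int.natCast_dvd]
  refine Finset.prod_primes_dvd _ (fun p hp => (hs p hp).prime) fun p hp => ?_
  have := h p hp
  rwa [Int.natCast_dvd] at this

/-- the local coordinates are arbitrary -/
theorem surj_loc (hn : n % 4 = 3) (hs : Squarefree n) (a0 : 0 < a) (hh : 4 * a ∣ h ^ 2 + n)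
    (c : ℕ → ℤ) : ∃ z g : ℤ, 0 ≤ z ∧ z < n ∧ 0 ≤ g ∧ g < 2 * a ∧ 2 * a ∣ z + h * g ∧
      ∀ p ∈ n.primeFactors, (p : ℤ) ∣ co a p z g - c p := by
  classical
  have n0 : (0 : ℤ) < n := by
    have := Nat.pos_of_ne_zero hs.ne_zero
    exact_mod_cast this
  set Ka : Finset ℕ := n.primeFactors.filter fun p : ℕ => (p : ℤ) ∣ a with hKa
  have kp : ∀ p ∈ Ka, p.Prime := fun p hp => Nat.prime_of_mem_primeFactors (mem_filter.1 hp).1
  set d : ℤ := ∏ p ∈ Ka, (p : ℤ) with hd
  have d0 : d ≠ 0 := Finset.prod_ne_zero_iff.2 fun p hp => by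
    have := (kp p hp).ne_zero
    exact_mod_cast this
  have dpos : 0 < d := Finset.prod_pos fun p hp => by
    have := (kp p hp).pos
    exact_mod_cast this
  obtain ⟨a1, ha1⟩ : d ∣ a := prod_dvd' Ka kp fun p hp => (mem_filter.1 hp).2
  obtain ⟨h1, hh1⟩ : d ∣ h := prod_dvd' Ka kp fun p hp => F1 hh (mem_filter.1 hp).1 (mem_filter.1 hp).2
  have co1 : IsCoprime (2 * a1) d := by
    refine IsCoprime.prod_right fun p hp => ?_
    have hp' : Prime (p : ℤ) := Nat.prime_iff_prime_int.1 (kp p hp)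
    refine ((Prime.coprime_iff_not_dvd hp').2 ?_).symm
    intro h2
    rcases hp'.dvd_or_dvd h2 with h3 | h3
    · have : p ∣ 2 := by exact_mod_cast h3
      rw [Nat.prime_dvd_prime_iff_eq (kp p hp) Nat.prime_two] at this
      exact p_ne2 hn (mem_filter.1 hp).1 this
    · have h4 : (p : ℤ) ∣ d := Finset.dvd_prod_of_mem _ hp
      refine F2 hs hh (mem_filter.1 hp).1 ?_
      rw [ha1, pow_two]
      exact mul_dvd_mul h4 h3
  have a10 : a1 ≠ 0 := by
    rintro rfl
    rw [mul_zero] at ha1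
    omega
  have co2 : IsCoprime h1 (2 * a1) := by
    refine isCoprime_of_prime_dvd (fun h2 => a10 (by
      have := h2.2
      omega)) ?_
    intro q hq q1 q2
    have hq1 : q ∣ h := by
      rw [hh1]
      exact q1.mul_left d
    have hq2 : q ∣ 2 * a := by
      have : 2 * a = d * (2 * a1) := by rw [ha1]; ring
      rw [this]
      exact q2.mul_left d
    have hq3 : ¬ q ∣ 2 := by
      intro h3
      obtain ⟨s, hs'⟩ := odd_root hn hh
      have h4 : q ∣ 1 := by
        have : (1 : ℤ) = h - 2 * s := by rw [hs']; ring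
        rw [this]
        exact dvd_sub hq1 (h3.mul_right s)
      exact hq.not_unit (isUnit_of_dvd_one h4)
    have hq4 : q ∣ a := (hq.dvd_or_dvd hq2).resolve_left hq3
    have hq5 : q ∣ (n : ℤ) := by
      have h5 : q ∣ h ^ 2 + n := (hq4.trans (Dvd.intro_left 4 rfl)).trans hh
      exact (dvd_add_right (dvd_pow hq1 two_ne_zero)).1 h5
    have hqp : q.natAbs.Prime := Int.prime_iff_natAbs_prime.1 hq
    have hqK : q.natAbs ∈ Ka := by
      rw [mem_filter]
      exact ⟨Nat.mem_primeFactors.2 ⟨hqp, by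
        have := Int.natAbs_dvd_natAbs.2 hq5
        simpa using this, hs.ne_zero⟩, by
        rw [Int.natCast_natAbs, abs_dvd]
        exact hq4⟩
    have h6 : q ∣ d := by
      have : ((q.natAbs : ℕ) : ℤ) ∣ d := Finset.dvd_prod_of_mem _ hqK
      rwa [Int.natCast_natAbs, abs_dvd] at this
    exact hq.not_unit (co1.isUnit_of_dvd' q2 h6)
  obtain ⟨z0, hz0⟩ := crt n.primeFactors (fun p hp => Nat.prime_of_mem_primeFactors hp)
    (fun p => if (p : ℤ) ∣ a then 0 else c p)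
  obtain ⟨g0, hg0⟩ := crt Ka kp c
  set z := z0 % n with hz
  have zc : ∀ p ∈ n.primeFactors, (p : ℤ) ∣ z - (if (p : ℤ) ∣ a then 0 else c p) := by
    intro p hp
    have hpn : (p : ℤ) ∣ n := by exact_mod_cast Nat.dvd_of_mem_primeFactors hp
    have e1 : z - (if (p : ℤ) ∣ a then 0 else c p) = (z0 - (if (p : ℤ) ∣ a then 0 else c p)) -
        n * (z0 / n) := by
      have := Int.emod_add_mul_ediv z0 n
      rw [hz]
      linarith
    rw [e1]
    exact dvd_sub (hz0 p hp) (hpn.mul_right _)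
  obtain ⟨z1, hz1⟩ : d ∣ z := by
    refine prod_dvd' Ka kp fun p hp => ?_
    have h2 := zc p (mem_filter.1 hp).1
    rwa [if_pos (mem_filter.1 hp).2, sub_zero] at h2
  obtain ⟨u, v, huv⟩ := co2
  obtain ⟨r, s, hrs⟩ := co1
  set g2 : ℤ := -(z1 * u) + 2 * a1 * (r * (g0 + z1 * u)) with hg2
  have a20 : (0 : ℤ) < 2 * a := by omega
  have q1 : 2 * a ∣ z + h * g2 := by
    refine ⟨z1 * v + h1 * (r * (g0 + z1 * u)), ?_⟩
    rw [hz1, hh1, hg2, ha1]
    linear_combination -(d * z1) * huv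
  have q2 : d ∣ g2 - g0 := by
    refine ⟨-(s * (g0 + z1 * u)), ?_⟩
    rw [hg2]
    linear_combination (g0 + z1 * u) * hrs
  have em : g2 % (2 * a) = g2 - 2 * a * (g2 / (2 * a)) := by
    have := Int.emod_add_mul_ediv g2 (2 * a)
    linarith
  refine ⟨z, g2 % (2 * a), Int.emod_nonneg _ n0.ne', Int.emod_lt_of_pos _ n0,
    Int.emod_nonneg _ a20.ne', Int.emod_lt_of_pos _ a20, ?_, fun p hp => ?_⟩
  · have e1 : z + h * (g2 % (2 * a)) = z + h * g2 - 2 * a * (h * (g2 / (2 * a))) := by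
      rw [em]
      ring
    rw [e1]
    exact dvd_sub q1 (Dvd.intro _ rfl)
  · unfold co
    by_cases ha : (p : ℤ) ∣ a
    · rw [if_pos ha]
      have hpK : p ∈ Ka := mem_filter.2 ⟨hp, ha⟩
      have hpd : (p : ℤ) ∣ d := Finset.dvd_prod_of_mem _ hpK
      have e1 : g2 % (2 * a) - c p = (g2 - g0) + (g0 - c p) - 2 * a * (g2 / (2 * a)) := by
        rw [em]
        ring
      rw [e1]
      exact dvd_sub (dvd_add (hpd.trans q2) (hg0 p hpK)) ((ha.mul_left 2).mul_right _)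
    · rw [if_neg ha]
      have := zc p hp
      rwa [if_neg ha] at this

end Run7.h238.P
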