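import Pool.Agent.Run7.h238.P.Zc

/-!
# The number of the parameters `(z, g)` as a product of local numbers
-/

set_option autoImplicit false

namespace Run7.h238.P

open Finset
open Pool.Agent.Z700 (hh fac)

open scoped Classical in
/-- the local solutions -/
noncomputable def LS (n b e a : ℤ) (p : ℕ) : Finset ℕ :=
  (range p).filter fun c : ℕ => Lc n b e a p c

variable {n : ℕ} {b e a h : ℤ}

theorem card_ZP (hn : n % 4 = 3) (hs : Squarefree n) (a0 : 0 < a) (hh : 4 * a ∣ h ^ 2 + n)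
    (hb : (n : ℤ) ∣ 20 * a * e ^ 2 + b ^ 2) :
    Nat.card {q : ℤ × ℤ // ZP n b e a h q.1 q.2} = ∏ p ∈ n.primeFactors, (LS n b e a p).card := by
  classical
  rw [← Finset.card_pi]
  have hmod : ∀ (p : ℕ), p ∈ n.primeFactors → ∀ x : ℤ, (0 : ℤ) ≤ x % p ∧ x % p < p ∧
      (p : ℤ) ∣ x % p - x := by
    intro p hp x
    have hp0 : (0 : ℤ) < p := by
      have := (Nat.prime_of_mem_primeFactors hp).pos
      exact_mod_cast this
    refine ⟨Int.emod_nonneg _ hp0.ne', Int.emod_lt_of_pos _ hp0, -(x / p), ?_⟩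
    have := Int.emod_add_mul_ediv x p
    linarith
  have hf : ∀ q : {q : ℤ × ℤ // ZP n b e a h q.1 q.2},
      (fun (p : ℕ) (_ : p ∈ n.primeFactors) => (co a p q.1.1 q.1.2 % p).toNat) ∈
        n.primeFactors.pi (LS n b e a) := by
    rintro ⟨⟨z, g⟩, x⟩
    rw [Finset.mem_pi]
    intro p hp
    obtain ⟨m1, m2, m3⟩ := hmod p hp (co a p z g)
    have hpn : (p : ℤ) ∣ n := by exact_mod_cast Nat.dvd_of_mem_primeFactors hp
    have hL := (crit hn hs a0 hh hb x.zg).1 ⟨x.cc, x.bz⟩ p hp
    unfold LS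
    rw [mem_filter, mem_range]
    dsimp only at hL ⊢
    refine ⟨by omega, ?_⟩
    rw [Int.toNat_of_nonneg m1]
    exact Lc_congr hpn m3 hL
  have hbij : Function.Bijective (fun q : {q : ℤ × ℤ // ZP n b e a h q.1 q.2} =>
      (⟨_, hf q⟩ : (n.primeFactors.pi (LS n b e a) : Finset _))) := by
    constructor
    · rintro ⟨⟨z, g⟩, x⟩ ⟨⟨z', g'⟩, x'⟩ heq
      have h1 := congrArg Subtype.val heq
      dsimp only at h1 x x'
      obtain ⟨r1, r2⟩ := inj_loc hn hs a0 hh x.z0 x.z1 x.g0 x.g1 x'.z0 x'.z1 x'.g0 x'.g1 x.zg x'.zg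
        (fun p hp => by
          have h2 := congrFun (congrFun h1 p) hp
          obtain ⟨m1, m2, m3⟩ := hmod p hp (co a p z g)
          obtain ⟨k1, k2, k3⟩ := hmod p hp (co a p z' g')
          have h3 : co a p z g % p = co a p z' g' % p := by omega
          exact Int.ModEq.dvd (show co a p z' g' ≡ co a p z g [ZMOD p] from h3.symm))
      subst r1 r2
      rfl
    · rintro ⟨f, hf'⟩
      have hf2 := Finset.mem_pi.1 hf'
      obtain ⟨z, g, z0, z1, g0, g1, hz, hc⟩ := surj_loc hn hs a0 hh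
        (fun p => if hp : p ∈ n.primeFactors then (f p hp : ℤ) else 0)
      have hc2 : ∀ (p : ℕ) (hp : p ∈ n.primeFactors), (p : ℤ) ∣ co a p z g - f p hp := by
        intro p hp
        have := hc p hp
        rwa [dif_pos hp] at this
      have hcr := (crit (g := g) (z := z) (e := e) (b := b) hn hs a0 hh hb hz).2 (fun p hp => by
        have hpn : (p : ℤ) ∣ n := by exact_mod_cast Nat.dvd_of_mem_primeFactors hp
        have h2 := hf2 p hp
        unfold LS at h2
        rw [mem_filter] at h2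
        exact Lc_congr hpn (hc2 p hp) h2.2)
      refine ⟨⟨(z, g), ⟨z0, z1, g0, g1, hz, hcr.1, hcr.2⟩⟩, ?_⟩
      apply Subtype.ext
      funext p hp
      dsimp only
      obtain ⟨m1, m2, m3⟩ := hmod p hp (co a p z g)
      have h2 := hf2 p hp
      unfold LS at h2
      rw [mem_filter, mem_range] at h2
      have h3 : co a p z g % p = f p hp := by
        refine eq_of_range m1 m2 (by positivity) (by exact_mod_cast h2.1) ?_
        have := dvd_add m3 (hc2 p hp)
        have e1 : co a p z g % p - co a p z g + (co a p z g - f p hp) = co a p z g % p - f p hp := by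
          ring
        rwa [e1] at this
      rw [h3, Int.toNat_natCast]
  rw [Nat.card_congr (Equiv.ofBijective _ hbij), Nat.card_eq_fintype_card, Fintype.card_coe]

/-- the number of solutions of `α c² + β = 0` -/
theorem card_quad {p : ℕ} (hp : p.Prime) (p2 : p ≠ 2) {α β : ℤ} (hα : ¬ (p : ℤ) ∣ α) :
    (((range p).filter fun c : ℕ => (p : ℤ) ∣ α * (c : ℤ) ^ 2 + β).card : ℤ) =
      1 + jacobiSym (-(α * β)) p := by
  classical
  have : Fact p.Prime := ⟨hp⟩
  rw [← jacobiSym.legendreSym.to_jacobiSym, add_comm, ← legendreSym.card_sqrts p p2]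
  congr 1
  have hα' : (α : ZMod p) ≠ 0 := by
    rw [Ne, ZMod.intCast_zmod_eq_zero_iff_dvd]
    exact hα
  refine Finset.card_bij (fun c _ => (α : ZMod p) * (c : ZMod p)) ?_ ?_ ?_
  · intro c hc
    rw [mem_filter] at hc
    rw [Set.mem_toFinset, Set.mem_setOf_eq]
    have h1 := (ZMod.intCast_zmod_eq_zero_iff_dvd _ p).2 hc.2
    push_cast at h1 ⊢
    linear_combination (α : ZMod p) * h1
  · intro c hc c' hc' he
    rw [mem_filter, mem_range] at hc hc'
    have h1 : (c : ZMod p) = (c' : ZMod p) := mul_left_cancel₀ hα' he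
    rw [ZMod.natCast_eq_natCast_iff'] at h1
    rwa [Nat.mod_eq_of_lt hc.1, Nat.mod_eq_of_lt hc'.1] at h1
  · intro x hx
    rw [Set.mem_toFinset, Set.mem_setOf_eq] at hx
    refine ⟨((α : ZMod p)⁻¹ * x).val, ?_, ?_⟩
    · rw [mem_filter, mem_range]
      refine ⟨ZMod.val_lt _, ?_⟩
      rw [← ZMod.intCast_zmod_eq_zero_iff_dvd]
      push_cast
      rw [ZMod.natCast_zmod_val]
      push_cast at hx
      have e1 : (α : ZMod p) * ((α : ZMod p)⁻¹ * x) ^ 2 + β =
          (α : ZMod p)⁻¹ * (x ^ 2 - -(α * β)) * (((α : ZMod p) * (α : ZMod p)⁻¹)) +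
          (1 - ((α : ZMod p) * (α : ZMod p)⁻¹)) * ((1 + (α : ZMod p) * (α : ZMod p)⁻¹) * β) := by
        ring
      rw [e1, hx, mul_inv_cancel₀ hα']
      ring
    · rw [ZMod.natCast_zmod_val, ← mul_assoc, mul_inv_cancel₀ hα', one_mul]

end Run7.h238.P
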